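import Mathlib

set_option autoImplicit false
open Set Metric Filter Topology Complex

namespace Pool.Agent.H.MP_81537f_an

lemma stay {f : ℝ → ℝ} (hf : Continuous f) {u v : ℝ} (huv : u ≤ v) (c : ℝ)
    (h : ∀ x ∈ Icc u v, 0 ≤ Real.cos (f x - c)) (h0 : |f u - c| ≤ Real.pi / 2) :
    |f v - c| ≤ Real.pi / 2 := by
  have pp := Real.pi_pos
  have hc : ContinuousOn (fun x => |f x - c|) (Icc u v) := by fun_prop
  by_contra g
  push Not at g
  obtain ⟨x, hx, e⟩ := intermediate_value_Icc huv hc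
    (show min |f v - c| Real.pi ∈ Icc _ _ from ⟨le_min (by linarith) (by linarith), min_le_left _ _⟩)
  have := h x hx
  beta_reduce at e
  rw [← Real.cos_abs, e] at this
  exact absurd this (not_le.2 (Real.cos_neg_of_pi_div_two_lt_of_lt (lt_min g (by linarith))
    ((min_le_right _ _).trans_lt (by linarith))))

lemma cross {a d : ℝ → ℂ} {a0 a1 d0 d1 L R : ℝ} (ha : a0 ≤ a1) (hd : d0 ≤ d1)
    (ca : ContinuousOn a (Icc a0 a1)) (cd : ContinuousOn d (Icc d0 d1))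
    (hne : ∀ s ∈ Icc a0 a1, ∀ t ∈ Icc d0 d1, a s ≠ d t)
    (ra : ∀ s ∈ Icc a0 a1, L ≤ (a s).re ∧ (a s).re ≤ R) (rd : ∀ t ∈ Icc d0 d1, L ≤ (d t).re ∧ (d t).re ≤ R)
    (e1 : (a a0).re = L) (e2 : (d d0).re = L) (e3 : (a a1).re = R) (hlt : (a a0).im < (d d0).im) :
    ((d d1).re = R → (a a1).im < (d d1).im) ∧ ¬ ∀ s ∈ Icc a0 a1, (d d1).im < (a s).im := by
  have pp := Real.pi_pos
  have cl : ∀ {u v : ℝ}, u ≤ v → ∀ h : ℝ, max u (min v h) ∈ Icc u v := fun huv h =>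
    ⟨le_max_left _ _, max_le huv (min_le_left _ _)⟩
  have cl' : ∀ {u v : ℝ}, ∀ h ∈ Icc u v, max u (min v h) = h := fun h hh => by
    rw [min_eq_right hh.2, max_eq_right hh.1]
  let F : C(ℝ × ℝ, {z : ℂ // z ≠ 0}) := ⟨fun p => ⟨a (max a0 (min a1 p.1)) - d (max d0 (min d1 p.2)),
      sub_ne_zero.2 (hne _ (cl ha _) _ (cl hd _))⟩,
    ((ca.comp_continuous (by fun_prop) fun p => cl ha _).sub
      (cd.comp_continuous (by fun_prop) fun p => cl hd _)).subtype_mk _⟩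
  have ma0 : a0 ∈ Icc a0 a1 := left_mem_Icc.2 ha
  have ma1 : a1 ∈ Icc a0 a1 := right_mem_Icc.2 ha
  have md0 : d0 ∈ Icc d0 d1 := left_mem_Icc.2 hd
  have md1 : d1 ∈ Icc d0 d1 := right_mem_Icc.2 hd
  obtain ⟨θ, ⟨h0, hθ⟩, -⟩ := isCoveringMap_exp.existsUnique_continuousMap_lifts F (a0, d0)
    (Real.log ((d d0).im - (a a0).im) + (-(Real.pi / 2) : ℝ) * I) (Subtype.ext (by
      simp only [F, ContinuousMap.coe_mk]
      rw [cl' _ ma0, cl' _ md0, exp_add, ← ofReal_exp, Real.exp_log (by linarith), exp_mul_I]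
      apply Complex.ext <;> simp [e1, e2]))
  have hθ' : ∀ s ∈ Icc a0 a1, ∀ t ∈ Icc d0 d1, cexp (θ (s, t)) = a s - d t := fun s hs t ht => by
    have := congrArg Subtype.val (congrFun hθ (s, t))
    simpa [F, cl' s hs, cl' t ht] using this
  have hθc := θ.continuous
  have z0 : (θ (a0, d0)).im = -(Real.pi / 2) := by rw [h0]; simp
  have hre : ∀ s ∈ Icc a0 a1, ∀ t ∈ Icc d0 d1,
      (a s).re - (d t).re = Real.exp (θ (s, t)).re * Real.cos (θ (s, t)).im := fun s hs t ht => by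
    rw [← exp_re, hθ' s hs t ht, sub_re]
  have him : ∀ s ∈ Icc a0 a1, ∀ t ∈ Icc d0 d1,
      (a s).im - (d t).im = Real.exp (θ (s, t)).re * Real.sin (θ (s, t)).im := fun s hs t ht => by
    rw [← exp_im, hθ' s hs t ht, sub_im]
  have pos : ∀ s ∈ Icc a0 a1, ∀ t ∈ Icc d0 d1, (d t).re ≤ (a s).re →
      0 ≤ Real.cos ((θ (s, t)).im - 0) := fun s hs t ht h => by
    rw [sub_zero]
    exact nonneg_of_mul_nonneg_right (by rw [← hre s hs t ht]; linarith) (Real.exp_pos (θ (s, t)).re)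
      |> fun x => x
  have neg : ∀ s ∈ Icc a0 a1, ∀ t ∈ Icc d0 d1, (a s).re ≤ (d t).re →
      0 ≤ Real.cos ((θ (s, t)).im - -Real.pi) := fun s hs t ht h => by
    rw [sub_neg_eq_add, Real.cos_add_pi, neg_nonneg]
    exact nonpos_of_mul_nonpos_right (by rw [← hre s hs t ht]; linarith) (Real.exp_pos (θ (s, t)).re)
      |> fun x => x
  have s1 := stay (f := fun s => (θ (s, d0)).im) (by fun_prop) ha 0
    (fun s hs => pos s hs d0 md0 (by rw [e2]; exact (ra s hs).1))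
    (by rw [z0, sub_zero, abs_neg, abs_of_pos (by linarith)])
  have s2 := stay (f := fun t => (θ (a1, t)).im) (by fun_prop) hd 0
    (fun t ht => pos a1 ma1 t ht (by rw [e3]; exact (rd t ht).2)) s1
  have s3 := stay (f := fun t => (θ (a0, t)).im) (by fun_prop) hd (-Real.pi)
    (fun t ht => neg a0 ma0 t ht (by rw [e1]; exact (rd t ht).1))
    (by rw [z0, abs_of_pos (by linarith)]; linarith)
  rw [abs_le] at s2
  refine ⟨fun e4 => ?_, fun h => ?_⟩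
  · have s4 := stay (f := fun s => (θ (s, d1)).im) (by fun_prop) ha (-Real.pi)
      (fun s hs => neg s hs d1 md1 (by rw [e4]; exact (ra s hs).2)) s3
    rw [abs_le] at s4
    have e : (θ (a1, d1)).im = -(Real.pi / 2) := by linarith [s2.1, s4.2]
    have := him a1 ma1 d1 md1
    rw [e, Real.sin_neg, Real.sin_pi_div_two] at this
    linarith [Real.exp_pos (θ (a1, d1)).re]
  · have sp : ∀ s ∈ Icc a0 a1, 0 < Real.sin (θ (s, d1)).im := fun s hs =>
      (mul_pos_iff_of_pos_left (Real.exp_pos (θ (s, d1)).re)).1 (by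
        rw [← him s hs d1 md1]; linarith [h s hs])
    rw [abs_le] at s3
    have s5 : (θ (a0, d1)).im < -Real.pi := by
      by_contra g
      push Not at g
      have := Real.sin_nonpos_of_nonpos_of_neg_pi_le (x := (θ (a0, d1)).im) (by linarith [s3.2]) g
      linarith [sp a0 ma0]
    have s4 := stay (f := fun s => (θ (s, d1)).im) (by fun_prop) ha (Real.pi / 2 - 2 * Real.pi)
      (fun s hs => by
        rw [show (θ (s, d1)).im - (Real.pi / 2 - 2 * Real.pi) = (θ (s, d1)).im - Real.pi / 2 + 2 * Real.pi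
          by ring, Real.cos_add_two_pi, Real.cos_sub_pi_div_two]
        exact (sp s hs).le) (by rw [abs_le]; constructor <;> linarith [s3.1])
    rw [abs_le] at s4
    linarith [s4.2, s2.1]

lemma cross' {a d : ℝ → ℂ} {a0 a1 d0 d1 L R : ℝ} (ha : a0 ≤ a1) (hd : d0 ≤ d1)
    (ca : ContinuousOn a (Icc a0 a1)) (cd : ContinuousOn d (Icc d0 d1))
    (hne : ∀ s ∈ Icc a0 a1, ∀ t ∈ Icc d0 d1, a s ≠ d t)
    (ra : ∀ s ∈ Icc a0 a1, L ≤ (a s).re ∧ (a s).re ≤ R) (rd : ∀ t ∈ Icc d0 d1, L ≤ (d t).re ∧ (d t).re ≤ R)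
    (e1 : (a a0).re = L) (e2 : (d d0).re = L) (e3 : (a a1).re = R) (hlt : (d d0).im < (a a0).im) :
    ((d d1).re = R → (d d1).im < (a a1).im) ∧ ¬ ∀ s ∈ Icc a0 a1, (a s).im < (d d1).im := by
  have := cross (a := fun s => (starRingEnd ℂ) (a s)) (d := fun s => (starRingEnd ℂ) (d s)) (L := L) (R := R)
    ha hd (continuous_conj.comp_continuousOn ca) (continuous_conj.comp_continuousOn cd)
    (fun s hs t ht e => hne s hs t ht (star_injective e)) (by simpa using ra) (by simpa using rd)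
    (by simpa using e1) (by simpa using e2) (by simpa using e3) (by simpa using hlt)
  simpa using this

def Lf (U : Set ℂ) (R : ℂ → ℂ) (α γ : ℝ → ℂ) (T : ℝ) : Prop :=
  ContinuousOn γ (Ioc 0 T) ∧ ∀ s ∈ Ioc 0 T, γ s ∈ U ∧ R (γ s) = α s

lemma Lf.mono {U : Set ℂ} {R : ℂ → ℂ} {α γ : ℝ → ℂ} {T T' : ℝ} (h : Lf U R α γ T) (hT : T' ≤ T) :
    Lf U R α γ T' := ⟨h.1.mono (Ioc_subset_Ioc_right hT), fun s hs => h.2 s (Ioc_subset_Ioc_right hT hs)⟩

lemma lift {U : Set ℂ} (hU : IsOpen U) {R : ℂ → ℂ} (hR : ∀ z ∈ U, AnalyticAt ℂ R z) {α : ℝ → ℂ}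
    (hα : Continuous α) (hcrit : ∀ z ∈ U, ∀ s, 0 < s → R z = α s → deriv R z ≠ 0)
    (hcl : ∀ (z : ℕ → ℂ) (w : ℂ) (s : ℝ), 0 < s → (∀ k, z k ∈ U) → Tendsto z atTop (𝓝 w) →
      Tendsto (fun k => R (z k)) atTop (𝓝 (α s)) → w ∈ U)
    {s₀ : ℝ} (hs₀ : 0 < s₀) {γ₀ : ℝ → ℂ} (h0 : Lf U R α γ₀ s₀) (r : ℝ)
    (hr : ∀ s ∈ Ioc 0 s₀, ‖γ₀ s‖ < r) :
    (∃ T γ, s₀ ≤ T ∧ Lf U R α γ T ∧ EqOn γ γ₀ (Ioc 0 s₀) ∧ ‖γ T‖ = r ∧ ∀ s ∈ Ioc 0 T, ‖γ s‖ ≤ r) ∨
    ∀ T, s₀ ≤ T → ∃ γ, Lf U R α γ T ∧ EqOn γ γ₀ (Ioc 0 s₀) ∧ ∀ s ∈ Ioc 0 T, ‖γ s‖ < r := by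
  by_cases hex : ∃ T γ, s₀ ≤ T ∧ Lf U R α γ T ∧ EqOn γ γ₀ (Ioc 0 s₀) ∧ ∃ s ∈ Ioc 0 T, r ≤ ‖γ s‖
  · left
    obtain ⟨T, γ, hT, hL, hE, s, hs, hs'⟩ := hex
    have lt : ∀ s ∈ Ioc 0 s₀, ‖γ s‖ < r := fun s hs => by rw [hE hs]; exact hr s hs
    have s0s : s₀ ≤ s := not_lt.1 fun g => absurd hs' (not_le.2 (lt s ⟨hs.1, g.le⟩))
    have cn : ContinuousOn (fun s => ‖γ s‖) (Icc s₀ T) :=
      (hL.1.mono fun x hx => ⟨hs₀.trans_le hx.1, hx.2⟩).norm
    have hK : IsCompact (Icc s₀ T ∩ (fun s => ‖γ s‖) ⁻¹' {r}) :=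
      isCompact_Icc.of_isClosed_subset (cn.preimage_isClosed_of_isClosed isClosed_Icc isClosed_singleton)
        inter_subset_left
    have iv : ∀ x ∈ Icc s₀ T, r ≤ ‖γ x‖ → ∃ y ∈ Icc s₀ x, ‖γ y‖ = r := fun x hx h =>
      intermediate_value_Icc hx.1 (cn.mono (Icc_subset_Icc_right hx.2)) ⟨(lt s₀ ⟨hs₀, le_rfl⟩).le, h⟩
    obtain ⟨y, hy, hy'⟩ := iv s ⟨s0s, hs.2⟩ hs'
    obtain ⟨T', hT', hmin⟩ := hK.exists_isLeast ⟨y, ⟨hy.1, hy.2.trans hs.2⟩, hy'⟩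
    refine ⟨T', γ, hT'.1.1, hL.mono hT'.1.2, hE, hT'.2, fun x hx => not_lt.1 fun g => ?_⟩
    have s0x : s₀ ≤ x := not_lt.1 fun g' => absurd g (not_lt.2 (lt x ⟨hx.1, g'.le⟩).le)
    obtain ⟨y, hy, hy'⟩ := iv x ⟨s0x, hx.2.trans hT'.1.2⟩ g.le
    have : T' ≤ y := hmin ⟨⟨hy.1, hy.2.trans (hx.2.trans hT'.1.2)⟩, hy'⟩
    have e : x = y := le_antisymm (hx.2.trans this) hy.2
    rw [e, hy'] at g
    exact lt_irrefl _ g
  right
  push Not at hex
  intro T₁ hT₁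
  suffices h : ∃ γ, Lf U R α γ T₁ ∧ EqOn γ γ₀ (Ioc 0 s₀) by
    obtain ⟨γ, h1, h2⟩ := h
    exact ⟨γ, h1, h2, hex T₁ γ hT₁ h1 h2⟩
  by_contra hno
  have hb : BddAbove {T | s₀ ≤ T ∧ ∃ γ, Lf U R α γ T ∧ EqOn γ γ₀ (Ioc 0 s₀)} :=
    ⟨T₁, fun T ⟨_, γ, h1, h2⟩ => not_lt.1 fun g => hno ⟨γ, h1.mono g.le, h2⟩⟩
  obtain ⟨u, -, hu, hA⟩ := exists_seq_tendsto_sSup
    (S := {T | s₀ ≤ T ∧ ∃ γ, Lf U R α γ T ∧ EqOn γ γ₀ (Ioc 0 s₀)}) ⟨s₀, le_rfl, γ₀, h0, fun _ _ => rfl⟩ hb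
  obtain ⟨S, hS⟩ : ∃ S, S = sSup {T | s₀ ≤ T ∧ ∃ γ, Lf U R α γ T ∧ EqOn γ γ₀ (Ioc 0 s₀)} := ⟨_, rfl⟩
  rw [← hS] at hu
  choose hu0 g hg1 hg2 using hA
  have mu : ∀ k, u k ∈ Ioc 0 (u k) := fun k => ⟨hs₀.trans_le (hu0 k), le_rfl⟩
  have hS0 : 0 < S := hs₀.trans_le (ge_of_tendsto' hu hu0)
  obtain ⟨w, -, φ, hφ, hw⟩ := (isCompact_closedBall (0 : ℂ) r).tendsto_subseq (x := fun k => g k (u k))
    fun k => mem_closedBall_zero_iff.2 (hex _ _ (hu0 k) (hg1 k) (hg2 k) _ (mu k)).le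
  have hu' : Tendsto (u ∘ φ) atTop (𝓝 S) := hu.comp hφ.tendsto_atTop
  have hRt : Tendsto (fun k => R (((fun k => g k (u k)) ∘ φ) k)) atTop (𝓝 (α S)) := by
    refine ((hα.tendsto S).comp hu').congr fun k => ?_
    exact (((hg1 _).2 _ (mu _)).2).symm
  have wU := hcl _ w S hS0 (fun k => ((hg1 _).2 _ (mu _)).1) hw hRt
  have wR : R w = α S := tendsto_nhds_unique ((hR w wU).continuousAt.tendsto.comp hw) hRt
  have hst := (hR w wU).hasStrictDerivAt.hasStrictFDerivAt_equiv (hcrit w wU S hS0 wR)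
  obtain ⟨e, he⟩ : ∃ e, e = hst.toOpenPartialHomeomorph R := ⟨_, rfl⟩
  have e1 : (e : ℂ → ℂ) = R := he ▸ hst.toOpenPartialHomeomorph_coe
  have e2 : w ∈ e.source := he ▸ hst.mem_toOpenPartialHomeomorph_source
  have hW : IsOpen (e.target ∩ e.symm ⁻¹' U) := e.isOpen_inter_preimage_symm hU
  have hW' : α S ∈ e.target ∩ e.symm ⁻¹' U := by
    rw [← wR, ← e1]
    exact ⟨e.map_source e2, by rw [mem_preimage, e.left_inv e2]; exact wU⟩
  obtain ⟨η, hη, hball⟩ := Metric.isOpen_iff.1 (hW.preimage hα) S hW'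
  obtain ⟨k, k1, k2⟩ := ((hw.eventually (e.open_source.mem_nhds e2)).and
    (hu'.eventually (ball_mem_nhds S hη))).exists
  simp only [Function.comp] at k1 k2
  have k3 : S - η < u (φ k) := by rw [Real.dist_eq, abs_lt] at k2; linarith [k2.1]
  have hin : ∀ s, u (φ k) ≤ s → s ≤ S + η / 2 → α s ∈ e.target ∩ e.symm ⁻¹' U := fun s h1 h2 =>
    hball (by rw [mem_ball, Real.dist_eq, abs_lt]; constructor <;> linarith)
  have : S + η / 2 ≤ S := by
    conv_rhs => rw [hS]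
    refine le_csSup hb ⟨by linarith [ge_of_tendsto' hu hu0],
      fun s => if s ≤ u (φ k) then g (φ k) s else e.symm (α s), ⟨?_, fun s hs => ?_⟩, fun s hs => ?_⟩
    · refine ContinuousOn.if (fun a ha => ?_) ((hg1 _).1.mono fun a ha => ?_) ?_
      · have : a = u (φ k) := by simpa using (frontier_Iic_subset _ ha.2)
        rw [this, ← ((hg1 _).2 _ (mu _)).2, ← e1, e.left_inv k1]
      · exact ⟨ha.1.1, closure_minimal Subset.rfl isClosed_Iic ha.2⟩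
      · refine e.continuousOn_symm.comp hα.continuousOn fun a ha => (hin a ?_ ha.1.2).1
        exact closure_minimal (fun x hx => (not_le.1 hx).le) isClosed_Ici ha.2
    · beta_reduce
      split_ifs with h
      · exact (hg1 _).2 s ⟨hs.1, h⟩
      · have := hin s (not_le.1 h).le hs.2
        exact ⟨this.2, by rw [← e1, e.right_inv this.1]⟩
    · beta_reduce
      rw [if_pos (hs.2.trans (hu0 _)), hg2 _ hs]
  linarith

lemma uniq {U : Set ℂ} {R : ℂ → ℂ} (hR : ∀ z ∈ U, AnalyticAt ℂ R z) {α : ℝ → ℂ}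
    (hcrit : ∀ z ∈ U, ∀ s, 0 < s → R z = α s → deriv R z ≠ 0) {γ γ' : ℝ → ℂ} {T : ℝ} (hT : 0 < T)
    (h : Lf U R α γ T) (h' : Lf U R α γ' T) (e : γ T = γ' T) : EqOn γ γ' (Ioc 0 T) := by
  have inj : IsLocallyInjective (fun z : {z // z ∈ U ∧ deriv R z ≠ 0} => R z) := by
    refine isLocallyInjective_iff_nhds.2 fun z => ?_
    have hst := (hR z z.2.1).hasStrictDerivAt.hasStrictFDerivAt_equiv z.2.2
    refine ⟨Subtype.val ⁻¹' (hst.toOpenPartialHomeomorph R).source, continuous_subtype_val.continuousAt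
      ((hst.toOpenPartialHomeomorph R).open_source.mem_nhds hst.mem_toOpenPartialHomeomorph_source),
      fun x hx y hy e => Subtype.ext ((hst.toOpenPartialHomeomorph R).injOn hx hy e)⟩
  have : PreconnectedSpace (Ioc (0:ℝ) T) := isPreconnected_iff_preconnectedSpace.1 isPreconnected_Ioc
  have := IsSeparatedMap.eq_of_comp_eq (T2Space.isSeparatedMap _) inj
    (g₁ := fun s : Ioc (0:ℝ) T => ⟨γ s, (h.2 s s.2).1, hcrit _ (h.2 s s.2).1 s s.2.1 (h.2 s s.2).2⟩)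
    (g₂ := fun s : Ioc (0:ℝ) T => ⟨γ' s, (h'.2 s s.2).1, hcrit _ (h'.2 s s.2).1 s s.2.1 (h'.2 s s.2).2⟩)
    (h.1.domRestrict.subtype_mk _) (h'.1.domRestrict.subtype_mk _)
    (funext fun s => by exact ((h.2 s s.2).2).trans ((h'.2 s s.2).2).symm) ⟨T, hT, le_rfl⟩ (Subtype.ext e)
  intro s hs
  exact congrArg Subtype.val (congrFun this ⟨s, hs⟩)

lemma zb {r ρ : ℝ} (hr : 0 ≤ r) (hρ : r < ρ) (t : Finset ℂ) : ∀ (g : ℂ → ℂ) (B : ℝ), Differentiable ℂ g →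
    (∀ z ∈ t, ‖z‖ ≤ r ∧ g z = 0) → (∀ w, ‖w‖ = ρ → ‖g w‖ ≤ B) → ‖g 0‖ ≤ B * (r / (ρ - r)) ^ t.card := by
  induction t using Finset.induction_on with
  | empty =>
    intro g B hg _ hB
    simp only [Finset.card_empty, pow_zero, mul_one]
    refine norm_le_of_forall_mem_frontier_norm_le (U := ball 0 ρ) isBounded_ball hg.diffContOnCl
      (fun z hz => hB z ?_) (subset_closure (mem_ball_self (by linarith)))
    simpa using frontier_ball_subset_sphere hz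
  | insert a t ha ih =>
    intro g B hg hz hB
    have a1 := hz a (Finset.mem_insert_self _ _)
    have key : ∀ z, g z = (z - a) * dslope g a z := fun z => by
      have := sub_smul_dslope g a z
      rw [a1.2, sub_zero, smul_eq_mul] at this
      exact this.symm
    have hd : 0 < ρ - r := by linarith
    have := ih (dslope g a) (B / (ρ - r))
      (differentiableOn_univ.1 ((differentiableOn_dslope univ_mem).2 hg.differentiableOn))
      (fun z hz' => by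
        have h1 := hz z (Finset.mem_insert_of_mem hz')
        refine ⟨h1.1, (mul_eq_zero.1 ((key z).symm.trans h1.2)).resolve_left (sub_ne_zero.2 ?_)⟩
        rintro rfl
        exact ha hz')
      (fun w hw => by
        have h1 := hB w hw
        rw [key w, norm_mul] at h1
        have h2 : ρ - r ≤ ‖w - a‖ := by linarith [norm_sub_norm_le w a, a1.1]
        rw [le_div_iff₀' hd]
        exact (mul_le_mul_of_nonneg_right h2 (norm_nonneg _)).trans h1)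
    rw [key 0, norm_mul, zero_sub, norm_neg, Finset.card_insert_of_notMem ha, pow_succ]
    calc _ ≤ r * (B / (ρ - r) * (r / (ρ - r)) ^ t.card) :=
          mul_le_mul a1.1 this (norm_nonneg _) hr
      _ = _ := by field_simp

lemma alt (a b : ℝ) (k : ℕ) : ∀ (g : ℕ → ℝ → ℝ) (t : ℕ → ℝ),
    (∀ j, ∀ x ∈ Ioo a b, HasDerivAt (g j) (g (j + 1) x) x) → (∀ j ≤ k, t j ∈ Ioo a b) →
    (∀ j < k, t (j + 1) < t j) → (∀ j ≤ k, 0 < (-1) ^ j * g 0 (t j)) → ∃ x ∈ Ioo a b, 0 < g k x := by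
  induction k with
  | zero => exact fun g t _ h1 _ h3 => ⟨t 0, h1 0 le_rfl, by simpa using h3 0 le_rfl⟩
  | succ k ih =>
    intro g t hg h1 h2 h3
    have sub : ∀ j ≤ k, Icc (t (j + 1)) (t j) ⊆ Ioo a b := fun j hj x hx =>
      ⟨(h1 _ (by omega)).1.trans_le hx.1, hx.2.trans_lt (h1 _ (by omega)).2⟩
    have : ∀ j, ∃ x, j ≤ k → x ∈ Ioo (t (j + 1)) (t j) ∧ 0 < (-1) ^ j * g 1 x := by
      intro j
      by_cases hj : j ≤ k
      · obtain ⟨x, hx, e⟩ := exists_hasDerivAt_eq_slope (g 0) (g 1) (h2 j (by omega))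
          (fun x hx => (hg 0 x (sub j hj hx)).continuousAt.continuousWithinAt)
          (fun x hx => hg 0 x (sub j hj (Ioo_subset_Icc_self hx)))
        refine ⟨x, fun _ => ⟨hx, ?_⟩⟩
        rw [e, ← mul_div_assoc]
        refine div_pos ?_ (sub_pos.2 (h2 j (by omega)))
        have a1 := h3 j (by omega)
        have a2 := h3 (j + 1) (by omega)
        rw [pow_succ] at a2
        linarith
      · exact ⟨0, fun h => absurd h hj⟩
    choose x hx using this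
    exact ih (fun j => g (j + 1)) x (fun j => hg (j + 1))
      (fun j hj => sub j hj (Ioo_subset_Icc_self (hx j hj).1))
      (fun j hj => ((hx (j + 1) hj).1.2).trans (hx j hj.le).1.1) (fun j hj => (hx j hj).2)

end Pool.Agent.H.MP_81537f_an
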