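import Pool.Agent.H.MP_81537f_an.A

set_option autoImplicit false
open Set Metric Filter Topology Complex

namespace Pool.Agent.H.MP_81537f_an

structure Pr (F G : ℂ → ℂ) (M : ℕ) (c : ℂ) : Prop where
  dF : Differentiable ℂ F
  dG : Differentiable ℂ G
  rF : ∀ z : ℂ, z.im = 0 → (F z).im = 0
  rG : ∀ z : ℂ, z.im = 0 → (G z).im = 0
  G0 : G 0 = 1
  nz : ∀ z : ℂ, z.im ≠ 0 → F z = 0 → G z ≠ 0
  M0 : M ≠ 0
  c0 : c ≠ 0
  loc : ∃ h : ℂ → ℂ, AnalyticAt ℂ h 0 ∧ h 0 = c ∧ ∀ᶠ z in 𝓝 0, F z - G z = z ^ M * h z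

def UU (G : ℂ → ℂ) : Set ℂ := {z | z.im ≠ 0 ∧ G z ≠ 0}

def Dir (γ : ℝ → ℂ) (θ : ℝ) : Prop :=
  Tendsto γ (𝓝[>] 0) (𝓝 0) ∧ Tendsto (fun s => arg (γ s)) (𝓝[>] 0) (𝓝 θ)

def Gen (F G : ℂ → ℂ) (ω : ℂ) : Prop :=
  ∀ z ∈ UU G, ∀ s : ℝ, 0 < s → F z / G z = 1 + s * ω → deriv (fun z => F z / G z) z ≠ 0

namespace Pr
variable {F G : ℂ → ℂ} {M : ℕ} {c : ℂ} (P : Pr F G M c)
include P

lemma F0 : F 0 = 1 := by
  obtain ⟨h, -, -, h3⟩ := P.loc
  have := h3.self_of_nhds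
  rw [zero_pow P.M0, zero_mul, P.G0] at this
  exact sub_eq_zero.1 this

lemma an {z : ℂ} (hz : G z ≠ 0) : AnalyticAt ℂ (fun z => F z / G z) z :=
  (P.dF.analyticAt z).div (P.dG.analyticAt z) hz

lemma real {z : ℂ} (hz : z.im = 0) : (F z / G z).im = 0 := by simp [div_im, P.rF z hz, P.rG z hz]

lemma op : IsOpen (UU G) :=
  (isOpen_ne_fun continuous_im continuous_const).inter (isOpen_ne_fun P.dG.continuous continuous_const)

lemma gen : ∃ u ∈ Ioo 0 (Real.pi / 2), Gen F G (cexp (u * I)) := by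
  obtain ⟨h, h1, h2, h3⟩ := P.loc
  have hW : Differentiable ℂ fun z => deriv F z * G z - F z * deriv G z :=
    (P.dF.deriv.mul P.dG).sub (P.dF.mul P.dG.deriv)
  have hd : ∀ z, G z ≠ 0 → deriv (fun z => F z / G z) z = (deriv F z * G z - F z * deriv G z) / G z ^ 2 :=
    fun z hz => ((P.dF z).hasDerivAt.fun_div (P.dG z).hasDerivAt hz).deriv
  have G1 : ∀ᶠ z in 𝓝 (0:ℂ), G z ≠ 0 := P.dG.continuous.continuousAt.eventually_ne (by simp [P.G0])
  have hne : ∀ z, ∀ᶠ w in 𝓝[≠] z, deriv F w * G w - F w * deriv G w ≠ 0 := by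
    intro z
    refine (hW.analyticAt z).eventually_eq_zero_or_eventually_ne_zero.resolve_left fun h0 => ?_
    have h4 := AnalyticOnNhd.eq_of_eventuallyEq (fun z _ => hW.analyticAt z) analyticOnNhd_const h0
    obtain ⟨ε, hε, hb⟩ := Metric.eventually_nhds_iff_ball.1 (G1.and (h3.and
      (h1.continuousAt.eventually_ne (h2 ▸ P.c0))))
    have hm : ((ε / 2 : ℝ) : ℂ) ∈ ball (0:ℂ) ε := by
      rw [mem_ball_zero_iff, norm_real, Real.norm_of_nonneg (by positivity)]; linarith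
    have := isOpen_ball.is_const_of_deriv_eq_zero (convex_ball _ _).isPreconnected
      (fun z hz => (P.an (hb z hz).1).differentiableAt.differentiableWithinAt)
      (fun z hz => by rw [hd z (hb z hz).1, congrFun h4 z]; simp) hm (mem_ball_self hε)
    rw [P.F0, P.G0, div_one, div_eq_one_iff_eq (hb _ hm).1, ← sub_eq_zero, (hb _ hm).2.1] at this
    exact mul_ne_zero (pow_ne_zero _ (ofReal_ne_zero.2 (by positivity))) (hb _ hm).2.2 this
  have hc : {w | deriv F w * G w - F w * deriv G w = 0}.Countable := by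
    have : DiscreteTopology {w | deriv F w * G w - F w * deriv G w = 0} :=
      discreteTopology_subtype_iff.2 fun z _ => inf_principal_eq_bot.2 (hne z)
    exact TopologicalSpace.separableSpace_iff_countable.1 inferInstance
  obtain ⟨u, hu, hu'⟩ := ((hc.image fun z => arg (F z / G z - 1)).dense_compl ℝ).exists_between
    (half_pos Real.pi_pos)
  refine ⟨u, hu', fun z hz s hs e e' => hu ⟨z, ?_, ?_⟩⟩
  · rw [hd z hz.2, div_eq_zero_iff] at e'
    exact e'.resolve_right (pow_ne_zero _ hz.2)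
  · beta_reduce
    rw [e, add_sub_cancel_left, arg_real_mul _ hs, exp_mul_I,
      arg_cos_add_sin_mul_I ⟨by linarith [hu'.1, Real.pi_pos], by linarith [hu'.2, Real.pi_pos]⟩]

lemma clo (z : ℕ → ℂ) (w v : ℂ) (hv : v.im ≠ 0) (hz : ∀ k, z k ∈ UU G) (h1 : Tendsto z atTop (𝓝 w))
    (h2 : Tendsto (fun k => F (z k) / G (z k)) atTop (𝓝 v)) : w ∈ UU G := by
  have hw : w.im ≠ 0 := by
    intro hw
    have hm : MeromorphicAt (fun z => F z / G z) w :=
      (P.dF.analyticAt w).meromorphicAt.div (P.dG.analyticAt w).meromorphicAt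
    have h3 : Tendsto z atTop (𝓝[≠] w) := tendsto_nhdsWithin_iff.2 ⟨h1, Eventually.of_forall fun k e =>
      (hz k).1 (by rw [show z k = w from e, hw])⟩
    rcases lt_or_ge (meromorphicOrderAt (fun z => F z / G z) w) 0 with ho | ho
    · exact not_tendsto_atTop_of_tendsto_nhds h2.norm
        (tendsto_norm_atTop_iff_cobounded.2 ((tendsto_cobounded_of_meromorphicOrderAt_neg ho).comp h3))
    · obtain ⟨L, hL⟩ := tendsto_nhds_of_meromorphicOrderAt_nonneg hm ho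
      have e : v = L := tendsto_nhds_unique h2 (hL.comp h3)
      have h4 : Tendsto (fun t : ℝ => w + t) (𝓝[≠] 0) (𝓝[≠] w) := by
        refine tendsto_nhdsWithin_iff.2 ⟨?_, eventually_nhdsWithin_of_forall fun t ht => by simpa using ht⟩
        have : Continuous fun t : ℝ => w + t := by fun_prop
        simpa using (this.tendsto 0).mono_left nhdsWithin_le_nhds
      have h5 := (continuous_im.tendsto L).comp (hL.comp h4)
      have h6 : (im ∘ (fun z => F z / G z) ∘ fun t : ℝ => w + t) = fun _ => 0 :=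
        funext fun t => P.real (by simp [hw])
      rw [h6] at h5
      exact hv (e ▸ tendsto_nhds_unique h5 tendsto_const_nhds)
  refine ⟨hw, fun hG => P.nz w hw ?_ hG⟩
  have h3 := h2.mul ((P.dG.continuous.tendsto w).comp h1)
  rw [hG, mul_zero] at h3
  exact tendsto_nhds_unique ((P.dF.continuous.tendsto w).comp h1)
    (h3.congr fun k => div_mul_cancel₀ _ (hz k).2)

lemma start : ∃ s₀ : ℝ, 0 < s₀ ∧ ∀ ω : ℂ, ω.im ≠ 0 → ∀ θ ∈ Ioo (-Real.pi) Real.pi,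
    c * cexp (θ * I) ^ M = ‖c‖ * ω → ∃ γ₀, Lf (UU G) (fun z => F z / G z) (fun s => 1 + s * ω) γ₀ s₀ ∧
      Dir γ₀ θ ∧ ∀ s ∈ Ioc 0 s₀, ‖γ₀ s‖ < 1 := by
  obtain ⟨h, h1, h2, h3⟩ := P.loc
  have G0 : G 0 ≠ 0 := by simp [P.G0]
  have G1 : ∀ᶠ z in 𝓝 (0:ℂ), G z ≠ 0 := P.dG.continuous.continuousAt.eventually_ne G0
  have c0 := P.c0
  have M0 : (M : ℂ) ≠ 0 := Nat.cast_ne_zero.2 P.M0
  have k1 : AnalyticAt ℂ (fun z => h z / G z / c) 0 :=
    (h1.div (P.dG.analyticAt 0) G0).div analyticAt_const c0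
  have k0 : h 0 / G 0 / c = 1 := by rw [h2, P.G0, div_one, div_self c0]
  have k2 : AnalyticAt ℂ (fun z => cexp (log (h z / G z / c) / M)) 0 :=
    ((k1.clog (by rw [k0]; simp)).div analyticAt_const M0).cexp
  obtain ⟨ζ, hζ⟩ : ∃ ζ : ℂ → ℂ, ζ = fun z => z * cexp (log (h z / G z / c) / M) := ⟨_, rfl⟩
  have z0 : ζ 0 = 0 := by simp [hζ]
  have hst : HasStrictDerivAt ζ 1 0 := by
    rw [hζ]
    refine ((hasStrictDerivAt_id (0:ℂ)).mul k2.hasStrictDerivAt).congr_deriv ?_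
    simp [k0]
  have hev : ∀ᶠ z in 𝓝 (0:ℂ), G z ≠ 0 ∧ F z / G z = 1 + c * ζ z ^ M ∧ ‖z‖ < 1 := by
    filter_upwards [G1, h3, k1.continuousAt.eventually_ne (by rw [k0]; exact one_ne_zero),
      ball_mem_nhds (0:ℂ) one_pos] with z a1 a2 a3 a4
    refine ⟨a1, ?_, mem_ball_zero_iff.1 a4⟩
    rw [hζ, mul_pow, ← exp_nat_mul, mul_div_cancel₀ _ M0, exp_log a3, sub_eq_iff_eq_add'.1 a2]
    field_simp
  have hst' := hst.hasStrictFDerivAt_equiv one_ne_zero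
  obtain ⟨e, he⟩ : ∃ e, e = hst'.toOpenPartialHomeomorph ζ := ⟨_, rfl⟩
  have e1 : (e : ℂ → ℂ) = ζ := he ▸ hst'.toOpenPartialHomeomorph_coe
  have e2 : (0:ℂ) ∈ e.source := he ▸ hst'.mem_toOpenPartialHomeomorph_source
  have e3 : (0:ℂ) ∈ e.target := by simpa [e1, z0] using e.map_source e2
  have e4 : e.symm 0 = 0 := by simpa [e1, z0] using e.left_inv e2
  have e5 : HasDerivAt e.symm 1 0 := by
    have := e.hasDerivAt_symm e3 one_ne_zero (by rw [e4, e1]; exact hst.hasDerivAt)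
    simpa using this
  have e6 : Tendsto e.symm (𝓝 0) (𝓝 0) := by simpa [e4] using e5.continuousAt.tendsto
  obtain ⟨δ, hδ, hb⟩ := Metric.eventually_nhds_iff_ball.1 ((e6.eventually hev).and
    (e.open_target.mem_nhds e3))
  have n0 : 0 < ‖c‖ := norm_pos_iff.2 c0
  refine ⟨‖c‖ * (δ / 2) ^ M, by positivity, fun ω hω θ hθ hdir => ?_⟩
  obtain ⟨t, ht⟩ : ∃ t : ℝ → ℝ, t = fun s => (s / ‖c‖) ^ ((M : ℝ)⁻¹) := ⟨_, rfl⟩
  have ct : Continuous t := ht ▸ (continuous_id.div_const _).rpow_const fun _ => Or.inr (by positivity)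
  have t0 : t 0 = 0 := by simp [ht, P.M0]
  have tp : ∀ s, 0 < s → 0 < t s := fun s hs => by rw [ht]; positivity
  have tM : ∀ s, 0 < s → t s ^ M = s / ‖c‖ := fun s hs => by
    rw [ht]; exact Real.rpow_inv_natCast_pow (by positivity) P.M0
  have hin : ∀ s ∈ Ioc 0 (‖c‖ * (δ / 2) ^ M), (t s : ℂ) * cexp (θ * I) ∈ ball (0:ℂ) δ := fun s hs => by
    rw [mem_ball_zero_iff, norm_mul, norm_exp_ofReal_mul_I, mul_one, norm_real,
      Real.norm_of_nonneg (tp s hs.1).le]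
    have : t s ≤ δ / 2 := le_of_pow_le_pow_left₀ P.M0 (by positivity) (by
      rw [tM s hs.1, div_le_iff₀' n0]; exact hs.2)
    linarith
  have hw : Tendsto (fun s => (t s : ℂ) * cexp (θ * I)) (𝓝[>] 0) (𝓝[≠] 0) := by
    refine tendsto_nhdsWithin_iff.2 ⟨?_, eventually_nhdsWithin_of_forall fun s hs =>
      mul_ne_zero (ofReal_ne_zero.2 (tp s hs).ne') (exp_ne_zero _)⟩
    have : Continuous fun s => (t s : ℂ) * cexp (θ * I) := by fun_prop
    simpa [t0] using (this.tendsto 0).mono_left nhdsWithin_le_nhds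
  refine ⟨fun s => e.symm (t s * cexp (θ * I)), ⟨?_, fun s hs => ?_⟩, ⟨?_, ?_⟩,
    fun s hs => (hb _ (hin s hs)).1.2.2⟩
  · exact e.continuousOn_symm.comp (Continuous.continuousOn (by fun_prop)) fun s hs => (hb _ (hin s hs)).2
  · obtain ⟨⟨a1, a2, -⟩, a4⟩ := hb _ (hin s hs)
    rw [← e1, e.right_inv a4, mul_pow, mul_left_comm, hdir, ← ofReal_pow, tM s hs.1] at a2
    have a3 : F (e.symm (t s * cexp (θ * I))) / G (e.symm (t s * cexp (θ * I))) = 1 + s * ω := by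
      rw [a2]; push_cast; field_simp [ofReal_ne_zero.2 n0.ne']
    refine ⟨⟨fun g => ?_, a1⟩, a3⟩
    have := P.real g
    rw [a3] at this
    simp [hs.1.ne', hω] at this
  · exact e6.comp (hw.mono_right nhdsWithin_le_nhds)
  · have a1 := (e5.tendsto_slope_zero.comp hw).mul_const (cexp (θ * I))
    have a2 : arg (cexp (θ * I)) = θ := by rw [exp_mul_I, arg_cos_add_sin_mul_I ⟨hθ.1, hθ.2.le⟩]
    rw [one_mul] at a1
    have a3 := (continuousAt_arg (mem_slitPlane_iff_arg.2 ⟨by rw [a2]; exact hθ.2.ne,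
      exp_ne_zero _⟩)).tendsto.comp a1
    rw [a2] at a3
    refine a3.congr' (eventually_nhdsWithin_of_forall fun s hs => ?_)
    simp only [Function.comp, zero_add, e4, sub_zero, smul_eq_mul]
    rw [← arg_real_mul _ (tp s hs)]
    congr 1
    field_simp [ofReal_ne_zero.2 (tp s hs).ne']

lemma arcs : ∃ s₀ : ℝ, 0 < s₀ ∧ ∀ ω : ℂ, ω.im ≠ 0 → Gen F G ω → ∀ θ ∈ Ioo (-Real.pi) Real.pi,
    c * cexp (θ * I) ^ M = ‖c‖ * ω → ∀ r, 1 ≤ r →
    (∃ T γ, s₀ ≤ T ∧ Lf (UU G) (fun z => F z / G z) (fun s => 1 + s * ω) γ T ∧ Dir γ θ ∧ ‖γ T‖ = r ∧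
      ∀ s ∈ Ioc 0 T, ‖γ s‖ ≤ r) ∨
    ∀ T, s₀ ≤ T → ∃ γ, Lf (UU G) (fun z => F z / G z) (fun s => 1 + s * ω) γ T ∧ Dir γ θ ∧
      ∀ s ∈ Ioc 0 T, ‖γ s‖ < r := by
  obtain ⟨s₀, h0, H⟩ := P.start
  refine ⟨s₀, h0, fun ω hω hg θ hθ hd r hr => ?_⟩
  obtain ⟨γ₀, a1, a2, a3⟩ := H ω hω θ hθ hd
  have tr : ∀ γ, EqOn γ γ₀ (Ioc 0 s₀) → Dir γ θ := fun γ h => by
    have : γ₀ =ᶠ[𝓝[>] 0] γ := by filter_upwards [Ioc_mem_nhdsGT h0] with s hs using (h hs).symm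
    exact ⟨a2.1.congr' this, a2.2.congr' (this.fun_comp arg)⟩
  refine (lift P.op (fun z hz => P.an hz.2) (by fun_prop) hg
    (fun z w s hs b1 b2 b3 => P.clo z w _ (by simp [hs.ne', hω]) b1 b2 b3) h0 a1 r
    fun s hs => (a3 s hs).trans_le hr).imp ?_ ?_
  · rintro ⟨T, γ, b1, b2, b3, b4⟩
    exact ⟨T, γ, b1, b2, tr γ b3, b4⟩
  · intro h T hT
    obtain ⟨γ, b2, b3, b4⟩ := h T hT
    exact ⟨γ, b2, tr γ b3, b4⟩

end Pr

end Pool.Agent.H.MP_81537f_an
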