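import Pool.Agent.H.MP_81537f_an.B

set_option autoImplicit false
open Set Metric Filter Topology Complex

namespace Pool.Agent.H.MP_81537f_an

lemma trunc {γ : ℝ → ℂ} {T θ ε₀ : ℝ} (hT : 0 < T) (hc : ContinuousOn γ (Ioc 0 T))
    (hn : ∀ s ∈ Ioc 0 T, γ s ≠ 0) (hd : Dir γ θ) (hκ : 0 < ε₀) :
    ∀ᶠ ε in 𝓝[>] (0:ℝ), ∃ τ ∈ Ioc 0 T, ‖γ τ‖ = ε ∧ (∀ s ∈ Icc τ T, ε ≤ ‖γ s‖) ∧
      |arg (γ τ) - θ| < ε₀ := by
  obtain ⟨s₁, h1, h2⟩ := (nhdsGT_basis (0:ℝ)).eventually_iff.1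
    ((hd.2.eventually (ball_mem_nhds θ hκ)).and (Ioc_mem_nhdsGT hT))
  have sub : ∀ {x}, 0 < x → Icc x T ⊆ Ioc 0 T := fun hx y hy => ⟨hx.trans_le hy.1, hy.2⟩
  have h3 : s₁ / 2 ∈ Ioo 0 s₁ := ⟨by positivity, by linarith⟩
  obtain ⟨x, hx, hmin⟩ := isCompact_Icc.exists_isMinOn (nonempty_Icc.2 (h2 h3).2.2)
    (hc.mono (sub h3.1)).norm
  filter_upwards [Ioo_mem_nhdsGT (norm_pos_iff.2 (hn x (sub h3.1 hx)))] with ε hε
  obtain ⟨s₂, a1, a2⟩ := ((hd.1.eventually (ball_mem_nhds 0 hε.1)).and (Ioc_mem_nhdsGT hT)).exists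
  have cn := (hc.mono (sub a2.1)).norm
  have hK : IsCompact (Icc s₂ T ∩ (fun s => ‖γ s‖) ⁻¹' Iic ε) :=
    isCompact_Icc.of_isClosed_subset (cn.preimage_isClosed_of_isClosed isClosed_Icc isClosed_Iic)
      inter_subset_left
  obtain ⟨τ, hτ, hmax⟩ := hK.exists_isGreatest ⟨s₂, ⟨le_rfl, a2.2⟩, (mem_ball_zero_iff.1 a1).le⟩
  have b1 : τ < s₁ / 2 := not_le.1 fun g => absurd (hε.2.trans_le (hmin ⟨g, hτ.1.2⟩)) (not_lt.2 hτ.2)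
  have b2 : ε < ‖γ T‖ := hε.2.trans_le (hmin ⟨(h2 h3).2.2, le_rfl⟩)
  obtain ⟨y, hy, hy'⟩ := intermediate_value_Icc hτ.1.2 (cn.mono (Icc_subset_Icc_left hτ.1.1))
    (show ε ∈ Icc _ _ from ⟨hτ.2, b2.le⟩)
  have e : y = τ := le_antisymm (hmax ⟨⟨hτ.1.1.trans hy.1, hy.2⟩, hy'.le⟩) hy.1
  rw [e] at hy'
  refine ⟨τ, sub a2.1 hτ.1, hy', fun s hs => not_lt.1 fun g => ?_,
    (h2 ⟨a2.1.trans_le hτ.1.1, by linarith⟩).1⟩
  have : s = τ := le_antisymm (hmax ⟨⟨hτ.1.1.trans hs.1, hs.2⟩, g.le⟩) hs.1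
  rw [this] at g
  exact g.ne hy'

lemma sin_arg_ne {z : ℂ} (h : z.im ≠ 0) : Real.sin (arg z) ≠ 0 := by
  rw [sin_arg]
  exact div_ne_zero h (norm_ne_zero_iff.2 fun e => h (by simp [e]))

lemma band {γ : ℝ → ℂ} {T θ lo : ℝ} (hT : 0 < T) (hc : ContinuousOn γ (Ioc 0 T))
    (hn : ∀ s ∈ Ioc 0 T, (γ s).im ≠ 0) (hd : Dir γ θ) (hlo : Real.sin lo = 0)
    (hθ : θ ∈ Ioo lo (lo + Real.pi)) :
    ∃ m m', lo < m ∧ m' < lo + Real.pi ∧ ∀ s ∈ Ioc 0 T, arg (γ s) ∈ Icc m m' := by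
  obtain ⟨A, hA⟩ : ∃ A : ℝ → ℝ, A = fun s => if s ≤ 0 then θ else arg (γ s) := ⟨_, rfl⟩
  have A0 : A 0 = θ := by simp [hA]
  have A1 : ∀ s, 0 < s → A s = arg (γ s) := fun s hs => by simp [hA, hs]
  have cA : ContinuousOn A (Icc 0 T) := by
    intro s hs
    rcases hs.1.eq_or_lt with rfl | h
    · refine ContinuousWithinAt.mono ?_ Icc_subset_Ici_self
      rw [← continuousWithinAt_Ioi_iff_Ici, ContinuousWithinAt, A0]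
      exact hd.2.congr' (eventually_nhdsWithin_of_forall fun s hs => (A1 s hs).symm)
    · have h1 : ContinuousWithinAt (fun s => arg (γ s)) (Ioc 0 T) s :=
        (continuousAt_arg (Or.inr (hn s ⟨h, hs.2⟩))).comp_continuousWithinAt (hc s ⟨h, hs.2⟩)
      refine (h1.congr (fun y hy => A1 y hy.1) (A1 s h)).mono_of_mem_nhdsWithin ?_
      filter_upwards [self_mem_nhdsWithin, mem_nhdsWithin_of_mem_nhds (Ioi_mem_nhds h)] with y h1 h2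
        using ⟨h2, h1.2⟩
  obtain ⟨m, m', e⟩ : ∃ m m', A '' Icc 0 T = Icc m m' := ⟨_, _, cA.image_Icc hT.le⟩
  have m0 : θ ∈ A '' Icc 0 T := ⟨0, left_mem_Icc.2 hT.le, A0⟩
  have av : ∀ x, Real.sin x = 0 → x ≠ θ → x ∉ A '' Icc 0 T := by
    rintro _ h1 h2 ⟨s, hs, rfl⟩
    rcases hs.1.eq_or_lt with rfl | h
    · exact h2 A0
    · exact sin_arg_ne (hn s ⟨h, hs.2⟩) (A1 s h ▸ h1)
  have a1 := av lo hlo hθ.1.ne
  have a2 := av (lo + Real.pi) (by simp [hlo]) hθ.2.ne'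
  refine ⟨m, m', ?_, ?_, fun s hs => e ▸ ⟨s, Ioc_subset_Icc_self hs, A1 s hs.1⟩⟩
  · rw [e] at m0 a1
    exact not_le.1 fun g => a1 ⟨g, hθ.1.le.trans m0.2⟩
  · rw [e] at m0 a2
    exact not_le.1 fun g => a2 ⟨m0.1.trans hθ.2.le, g⟩

lemma cr3 {a a' d : ℝ → ℂ} {T T' S θ θ' θ'' r : ℝ} (hT : 0 < T) (hT' : 0 < T') (hS : 0 < S)
    (ca : ContinuousOn a (Ioc 0 T)) (ca' : ContinuousOn a' (Ioc 0 T')) (cd : ContinuousOn d (Ioc 0 S))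
    (na : ∀ s ∈ Ioc 0 T, (a s).im ≠ 0) (na' : ∀ s ∈ Ioc 0 T', (a' s).im ≠ 0)
    (nd : ∀ s ∈ Ioc 0 S, (d s).im ≠ 0) (da : Dir a θ) (dd : Dir d θ') (da' : Dir a' θ'')
    (h1 : θ < θ') (h2 : θ' < θ'') (ea : ‖a T‖ = r) (ea' : ‖a' T'‖ = r)
    (la : ∀ s ∈ Ioc 0 T, ‖a s‖ ≤ r) (la' : ∀ s ∈ Ioc 0 T', ‖a' s‖ ≤ r) (ld : ∀ s ∈ Ioc 0 S, ‖d s‖ ≤ r)
    (ne : ∀ s ∈ Ioc 0 T, ∀ t ∈ Ioc 0 S, a s ≠ d t) (ne' : ∀ s ∈ Ioc 0 T', ∀ t ∈ Ioc 0 S, a' s ≠ d t) :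
    (‖d S‖ = r → arg (a T) < arg (d S) ∧ arg (d S) < arg (a' T')) ∧
      (∃ s ∈ Ioc 0 T, arg (a s) ≤ arg (d S)) ∧ ∃ s ∈ Ioc 0 T', arg (d S) ≤ arg (a' s) := by
  have nz : ∀ {z : ℂ}, z.im ≠ 0 → z ≠ 0 := fun h e => h (by simp [e])
  have hκ : 0 < min (θ' - θ) (θ'' - θ') / 2 := half_pos (lt_min (by linarith) (by linarith))
  obtain ⟨ε, ⟨⟨τ, b1, b2, b3, b4⟩, ⟨τ', c1, c2, c3, c4⟩, σ, d1, d2, d3, d4⟩, hε⟩ :=
    (((trunc hT ca (fun s hs => nz (na s hs)) da hκ).and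
      ((trunc hT' ca' (fun s hs => nz (na' s hs)) da' hκ).and
      (trunc hS cd (fun s hs => nz (nd s hs)) dd hκ))).and self_mem_nhdsWithin).exists
  have hε' : 0 < ε := hε
  have sub : ∀ {x T : ℝ}, x ∈ Ioc 0 T → Icc x T ⊆ Ioc 0 T := fun hx y hy => ⟨hx.1.trans_le hy.1, hy.2⟩
  have cl : ∀ {γ : ℝ → ℂ} {x T : ℝ}, x ∈ Ioc 0 T → ContinuousOn γ (Ioc 0 T) →
      (∀ s ∈ Ioc 0 T, (γ s).im ≠ 0) → ContinuousOn (fun s => log (γ s)) (Icc x T) :=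
    fun hx h1 h2 => (h1.mono (sub hx)).clog fun s hs => Or.inr (h2 s (sub hx hs))
  have rg : ∀ {γ : ℝ → ℂ} {x T : ℝ}, x ∈ Ioc 0 T → (∀ s ∈ Icc x T, ε ≤ ‖γ s‖) → (∀ s ∈ Ioc 0 T, ‖γ s‖ ≤ r) →
      ∀ s ∈ Icc x T, Real.log ε ≤ (log (γ s)).re ∧ (log (γ s)).re ≤ Real.log r := fun hx h1 h2 s hs => by
    rw [log_re]
    exact ⟨Real.log_le_log hε' (h1 s hs), Real.log_le_log (hε'.trans_le (h1 s hs)) (h2 s (sub hx hs))⟩
  have inj : ∀ {z w : ℂ}, z.im ≠ 0 → w.im ≠ 0 → log z = log w → z = w := fun h1 h2 e => by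
    rw [← exp_log (nz h1), e, exp_log (nz h2)]
  rw [abs_lt] at b4 c4 d4
  have k1 := min_le_left (θ' - θ) (θ'' - θ')
  have k2 := min_le_right (θ' - θ) (θ'' - θ')
  have X := cross b1.2 d1.2 (cl b1 ca na) (cl d1 cd nd)
    (fun s hs t ht e => ne s (sub b1 hs) t (sub d1 ht) (inj (na s (sub b1 hs)) (nd t (sub d1 ht)) e))
    (rg b1 b3 la) (rg d1 d3 ld) (by rw [log_re, b2]) (by rw [log_re, d2]) (by rw [log_re, ea])
    (by rw [log_im, log_im]; linarith [b4.2, d4.1])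
  have Y := cross' c1.2 d1.2 (cl c1 ca' na') (cl d1 cd nd)
    (fun s hs t ht e => ne' s (sub c1 hs) t (sub d1 ht) (inj (na' s (sub c1 hs)) (nd t (sub d1 ht)) e))
    (rg c1 c3 la') (rg d1 d3 ld) (by rw [log_re, c2]) (by rw [log_re, d2]) (by rw [log_re, ea'])
    (by rw [log_im, log_im]; linarith [c4.1, d4.2])
  simp only [log_re, log_im] at X Y
  refine ⟨fun e => ⟨X.1 (by rw [e]), Y.1 (by rw [e])⟩, ?_, ?_⟩
  · have := X.2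
    push Not at this
    obtain ⟨s, hs, h⟩ := this
    exact ⟨s, sub b1 hs, h⟩
  · have := Y.2
    push Not at this
    obtain ⟨s, hs, h⟩ := this
    exact ⟨s, sub c1 hs, h⟩

lemma nrm1 {ω : ℂ} {s : ℝ} : 1 + s * ω.re ≤ ‖1 + s * ω‖ := by
  simpa using re_le_norm (1 + s * ω)

lemma nrm2 {ω : ℂ} (h : ‖ω‖ = 1) {s : ℝ} (hs : 0 ≤ s) : s - 1 ≤ ‖1 + s * ω‖ := by
  have := norm_sub_norm_le (s * ω) (-1)
  rw [norm_mul, h, norm_real, Real.norm_of_nonneg hs, norm_neg, norm_one, sub_neg_eq_add, add_comm] at this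
  linarith

lemma between {F G : ℂ → ℂ} {M : ℕ} {c : ℂ} (Q : Pr G F M c) (hF : ∀ z : ℂ, z.im ≠ 0 → F z ≠ 0)
    {ω ω' : ℂ} (w1 : 0 < ω.re) (w2 : 0 < ω'.re) (w3 : ‖ω'‖ = 1) (w4 : ω'.im ≠ 0) (hg : Gen G F ω')
    {a a' : ℝ → ℂ} {T T' θ θ' θ'' r lo : ℝ} (hT : 0 < T) (hT' : 0 < T') (hr : 1 ≤ r)
    (La : Lf (UU G) (fun z => F z / G z) (fun s => 1 + s * ω) a T)
    (La' : Lf (UU G) (fun z => F z / G z) (fun s => 1 + s * ω) a' T')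
    (da : Dir a θ) (da' : Dir a' θ'') (h1 : θ < θ') (h2 : θ' < θ'') (hθ' : θ' ∈ Ioo (-Real.pi) Real.pi)
    (hdir : c * cexp (θ' * I) ^ M = ‖c‖ * ω') (hlo : Real.sin lo = 0) (l1 : lo < θ)
    (l2 : θ'' < lo + Real.pi) (ea : ‖a T‖ = r) (ea' : ‖a' T'‖ = r)
    (la : ∀ s ∈ Ioc 0 T, ‖a s‖ ≤ r) (la' : ∀ s ∈ Ioc 0 T', ‖a' s‖ ≤ r) :
    ∃ z : ℂ, ‖z‖ = r ∧ arg (a T) < arg z ∧ arg z < arg (a' T') ∧ ‖F z‖ ≤ ‖G z‖ := by
  obtain ⟨s₀, h0, H⟩ := Q.arcs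
  have ne : ∀ {a d : ℝ → ℂ} {T S : ℝ}, Lf (UU G) (fun z => F z / G z) (fun s => 1 + s * ω) a T →
      Lf (UU F) (fun z => G z / F z) (fun s => 1 + s * ω') d S →
      ∀ s ∈ Ioc 0 T, ∀ t ∈ Ioc 0 S, a s ≠ d t := by
    intro a d T S La Ld s hs t ht e
    have b1 := (La.2 s hs).2
    have b2 := (Ld.2 t ht).2
    beta_reduce at b1 b2
    have b3 : (1 + s * ω) * (1 + t * ω') = 1 := by
      rw [← b1, ← b2, e]
      field_simp [(Ld.2 t ht).1.2, (e ▸ (La.2 s hs).1.2 : G (d t) ≠ 0)]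
    have b4 := congrArg norm b3
    rw [norm_mul, norm_one] at b4
    have := nrm1 (ω := ω) (s := s)
    have := nrm1 (ω := ω') (s := t)
    have := mul_pos hs.1 w1
    have := mul_pos ht.1 w2
    nlinarith
  rcases H ω' w4 hg θ' hθ' hdir r hr with ⟨S, d, b1, Ld, dd, ed, ld⟩ | hB
  · have hS := h0.trans_le b1
    have := (cr3 hT hT' hS La.1 La'.1 Ld.1 (fun s hs => (La.2 s hs).1.1) (fun s hs => (La'.2 s hs).1.1)
      (fun s hs => (Ld.2 s hs).1.1) da dd da' h1 h2 ea ea' la la' ld (ne La Ld) (ne La' Ld)).1 ed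
    refine ⟨d S, ed, this.1, this.2, ?_⟩
    obtain ⟨c1, c2⟩ := Ld.2 S ⟨hS, le_rfl⟩
    beta_reduce at c2
    have c3 := nrm1 (ω := ω') (s := S)
    rw [← c2, norm_div, le_div_iff₀ (norm_pos_iff.2 c1.2)] at c3
    nlinarith [mul_pos hS w2, norm_nonneg (F (d S)), mul_nonneg (mul_pos hS w2).le (norm_nonneg (F (d S)))]
  exfalso
  obtain ⟨m, _, m1, -, m2⟩ := band hT La.1 (fun s hs => (La.2 s hs).1.1) da hlo ⟨l1, by linarith⟩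
  obtain ⟨_, m', -, m3, m4⟩ := band hT' La'.1 (fun s hs => (La'.2 s hs).1.1) da' hlo ⟨by linarith, l2⟩
  have c0 : ContinuousAt (fun z => G z / F z) 0 := (Q.an (by simp [Q.G0])).continuousAt
  obtain ⟨ε, hε, hb⟩ := Metric.continuousAt_iff.1 c0 s₀ h0
  simp only [Q.G0, Q.F0, div_one, dist_eq_norm, sub_zero] at hb
  have hK : IsCompact ((fun p : ℝ × ℝ => (p.1 : ℂ) * cexp (p.2 * I)) '' (Icc ε r ×ˢ Icc m m')) :=
    (isCompact_Icc.prod isCompact_Icc).image (by fun_prop)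
  obtain ⟨B, hB'⟩ := hK.exists_bound_of_continuousOn (f := fun z => G z / F z) (by
    rintro _ ⟨p, hp, rfl⟩
    refine (Q.an (hF _ ?_)).continuousAt.continuousWithinAt
    simp only [im_ofReal_mul, exp_ofReal_mul_I_im]
    refine mul_ne_zero (hε.trans_le hp.1.1).ne' ?_
    have := Real.sin_pos_of_pos_of_lt_pi (x := p.2 - lo) (by linarith [hp.2.1]) (by linarith [hp.2.2])
    rw [Real.sin_sub, hlo, mul_zero, sub_zero] at this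
    exact fun e => by simp [e] at this)
  obtain ⟨d, Ld, dd, ld⟩ := hB (max s₀ (B + 2)) (le_max_left _ _)
  have hS := h0.trans_le (le_max_left s₀ (B + 2))
  obtain ⟨-, ⟨s, hs, e1⟩, s', hs', e2⟩ := cr3 hT hT' hS La.1 La'.1 Ld.1 (fun s hs => (La.2 s hs).1.1)
    (fun s hs => (La'.2 s hs).1.1) (fun s hs => (Ld.2 s hs).1.1) da dd da' h1 h2 ea ea' la la'
    (fun s hs => (ld s hs).le) (ne La Ld) (ne La' Ld)
  have c2 := (Ld.2 _ ⟨hS, le_rfl⟩).2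
  beta_reduce at c2
  have c3 := hB' _ ⟨(‖d (max s₀ (B + 2))‖, arg (d (max s₀ (B + 2)))), ⟨⟨not_lt.1 fun g => ?_,
    (ld _ ⟨hS, le_rfl⟩).le⟩, (m2 s hs).1.trans e1, e2.trans (m4 s' hs').2⟩, norm_mul_exp_arg_mul_I _⟩
  · rw [c2] at c3
    linarith [nrm2 w3 hS.le, le_max_right s₀ (B + 2)]
  · have := hb g
    rw [c2, add_sub_cancel_left, norm_mul, w3, mul_one, norm_real, Real.norm_of_nonneg hS.le] at this
    linarith [le_max_left s₀ (B + 2)]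

lemma count {F G : ℂ → ℂ} {M : ℕ} {c : ℂ} (P : Pr F G M c) {ω : ℂ} (w3 : ‖ω‖ = 1) (hg : Gen F G ω)
    {r s₀ : ℝ} (hr : 0 ≤ r) (h0 : 0 < s₀) {N : ℕ} {ρ B : ℝ} (hρ : r < ρ) (hB : ∀ w, ‖w‖ = ρ → ‖G w‖ ≤ B)
    (hBs : B * (r / (ρ - r)) ^ (N + 1) < 1 / 2) (θ : ℕ → ℝ) (hθ : Function.Injective θ) (t : Finset ℕ)
    (ht : ∀ j ∈ t, ∀ T, s₀ ≤ T → ∃ γ, Lf (UU G) (fun z => F z / G z) (fun s => 1 + s * ω) γ T ∧
      Dir γ (θ j) ∧ ∀ s ∈ Ioc 0 T, ‖γ s‖ < r) : t.card ≤ N := by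
  by_contra hN
  obtain ⟨t', ht', hc⟩ := Finset.exists_subset_card_eq (s := t) (n := N + 1) (by omega)
  obtain ⟨C, hC⟩ := (isCompact_sphere (0:ℂ) ρ).exists_bound_of_continuousOn P.dF.continuous.continuousOn
  obtain ⟨κ, hκ⟩ : ∃ κ, κ = (r / (ρ - r)) ^ (N + 1) := ⟨_, rfl⟩
  have κ0 : 0 ≤ κ := hκ ▸ pow_nonneg (div_nonneg hr (by linarith)) _
  obtain ⟨T, T1, T2⟩ : ∃ T, s₀ ≤ T ∧ 3 + 2 * (|C| * κ) ≤ T := ⟨_, le_max_left _ _, le_max_right _ _⟩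
  have hT := h0.trans_le T1
  choose! γ g1 g2 g3 using fun j hj => ht j (ht' hj) T T1
  have n1 := nrm2 w3 hT.le
  have n2 : 0 ≤ |C| * κ := by positivity
  have n3 : 0 < ‖1 + T * ω‖ := by linarith
  have n4 := norm_pos_iff.1 n3
  have := zb hr hρ (t'.image fun j => γ j T) (fun z => G z - F z / (1 + T * ω)) (B + |C| / ‖1 + T * ω‖)
    (P.dG.sub (P.dF.div_const _)) (fun z hz => by
      obtain ⟨j, hj, rfl⟩ := Finset.mem_image.1 hz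
      obtain ⟨a1, a2⟩ := (g1 j hj).2 T ⟨hT, le_rfl⟩
      beta_reduce at a2
      refine ⟨(g3 j hj T ⟨hT, le_rfl⟩).le, ?_⟩
      rw [div_eq_iff a1.2] at a2
      rw [a2]
      field_simp
      ring)
    (fun w hw => (norm_sub_le _ _).trans (add_le_add (hB w hw) (by
      rw [norm_div]
      gcongr
      exact (hC w (mem_sphere_zero_iff_norm.2 hw)).trans (le_abs_self _))))
  rw [Finset.card_image_of_injOn, hc, ← hκ, P.G0, P.F0] at this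
  · have a1 := norm_sub_norm_le (1 : ℂ) (1 / (1 + T * ω))
    rw [norm_one, norm_div, norm_one] at a1
    rw [← hκ] at hBs
    have a2 : (1 + |C| * κ) / ‖1 + T * ω‖ ≤ 1 / 2 := by
      rw [div_le_iff₀ n3]; linarith
    have a3 : (B + |C| / ‖1 + T * ω‖) * κ + 1 / ‖1 + T * ω‖ = B * κ + (1 + |C| * κ) / ‖1 + T * ω‖ := by
      ring
    linarith
  · intro i hi j hj e
    have := uniq (fun z hz => P.an hz.2) hg hT (g1 i hi) (g1 j hj) e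
    refine hθ (tendsto_nhds_unique (g2 i hi).2 ((g2 j hj).2.congr' ?_))
    filter_upwards [Ioc_mem_nhdsGT hT] with s hs using by rw [this hs]

end Pool.Agent.H.MP_81537f_an
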