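import Pool.Agent.H.MP_81537f_an.C

set_option autoImplicit false
open Set Metric Filter Topology Complex

namespace Pool.Agent.H.MP_81537f_an

def Pat (F G : ℂ → ℂ) (η r : ℝ) (q : ℕ) (z : ℕ → ℂ) : Prop :=
  ∀ j ≤ 2 * q, ‖z j‖ = r ∧ (z j).im ≠ 0 ∧
    if Even j then (1 + η) * ‖G (z j)‖ ≤ ‖F (z j)‖ else ‖F (z j)‖ ≤ ‖G (z j)‖

lemma re_eq (z : ℂ) : z.re = ‖z‖ * Real.cos (arg z) := (norm_mul_cos_arg z).symm

theorem topo {F G : ℂ → ℂ} {M : ℕ} {c : ℂ} (P : Pr F G M c) (Q : Pr G F M (-c)) (hc : c.im = 0)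
    (hF : ∀ z : ℂ, z.im ≠ 0 → F z ≠ 0) (N q : ℕ) (hM : N + 1 + 2 * q ≤ M)
    (hS : ∀ r : ℝ, 1 ≤ r → ∃ ρ B : ℝ, r < ρ ∧ (∀ w, ‖w‖ = ρ → ‖G w‖ ≤ B) ∧
      B * (r / (ρ - r)) ^ (N + 1) < 1 / 2) :
    ∃ η, 0 < η ∧ ∀ r, 1 ≤ r → ∃ z, Pat F G η r q z ∧ ∀ j < 2 * q, (z (j + 1)).re < (z j).re := by
  classical
  have pp := Real.pi_pos
  obtain ⟨u, hu, g1⟩ := P.gen
  obtain ⟨u', hu', g2⟩ := Q.gen
  obtain ⟨s₀, h0, H⟩ := P.arcs
  have wre : ∀ u ∈ Ioo 0 (Real.pi / 2), 0 < (cexp (u * I)).re := fun u hu => by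
    rw [exp_ofReal_mul_I_re]; exact Real.cos_pos_of_mem_Ioo ⟨by linarith [hu.1], hu.2⟩
  have wim : ∀ u ∈ Ioo 0 (Real.pi / 2), (cexp (u * I)).im ≠ 0 := fun u hu => by
    rw [exp_ofReal_mul_I_im]; exact (Real.sin_pos_of_pos_of_lt_pi hu.1 (by linarith [hu.2])).ne'
  refine ⟨s₀ * (cexp (u * I)).re, mul_pos h0 (wre u hu), fun r hr => ?_⟩
  obtain ⟨b, b0, b1, hb⟩ : ∃ b : ℝ, 0 ≤ b ∧ b ≤ Real.pi ∧ c * (-1) ^ M * cexp (b * I) = ‖c‖ := by
    obtain ⟨x, hx, hx'⟩ : ∃ x : ℝ, c * (-1) ^ M = x ∧ |x| = ‖c‖ :=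
      ⟨c.re * (-1) ^ M, by push_cast; congr 1; exact Complex.ext rfl (by simp [hc]), by
        simp [abs_re_eq_norm.2 hc]⟩
    rw [hx, ← hx']
    rcases le_total 0 x with h | h
    · exact ⟨0, le_rfl, pp.le, by simp [abs_of_nonneg h]⟩
    · exact ⟨Real.pi, pp.le, le_rfl, by simp [abs_of_nonpos h]⟩
  have M0 : (0:ℝ) < M := Nat.cast_pos.2 (Nat.pos_of_ne_zero P.M0)
  have pw : ∀ (x : ℝ) (j : ℕ), cexp ((((x + 2 * Real.pi * j) / M - Real.pi : ℝ) : ℂ) * I) ^ M =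
      (-1) ^ M * cexp (x * I) := fun x j => by
    rw [← exp_nat_mul, ← exp_neg_pi_mul_I, ← exp_nat_mul, ← exp_add]
    refine exp_eq_exp_iff_exists_int.2 ⟨j, ?_⟩
    have : (M : ℂ) ≠ 0 := Nat.cast_ne_zero.2 P.M0
    push_cast
    field_simp
    ring
  obtain ⟨θ, hθ⟩ : ∃ θ : ℕ → ℝ, θ = fun j : ℕ => (b + u + 2 * Real.pi * j) / M - Real.pi := ⟨_, rfl⟩
  obtain ⟨θ', hθ'⟩ : ∃ θ : ℕ → ℝ, θ = fun j : ℕ => (b + Real.pi + u' + 2 * Real.pi * j) / M - Real.pi :=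
    ⟨_, rfl⟩
  have t1 : ∀ j, c * cexp (θ j * I) ^ M = ‖c‖ * cexp (u * I) := fun j => by
    rw [hθ, pw, ← hb]; push_cast; rw [add_mul, exp_add]; ring
  have t2 : ∀ j, -c * cexp (θ' j * I) ^ M = ‖-c‖ * cexp (u' * I) := fun j => by
    rw [hθ', pw, norm_neg, ← hb]; push_cast; rw [add_mul, add_mul, exp_add, exp_add, exp_pi_mul_I]; ring
  have t3 : ∀ j, θ j < θ' j := fun j => by
    rw [hθ, hθ']; beta_reduce; gcongr ?_ / _ - _; linarith [hu.2, hu'.1]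
  have t4 : ∀ i j, i < j → θ' i < θ j := fun i j h => by
    have : (i : ℝ) + 1 ≤ j := by exact_mod_cast h
    rw [hθ, hθ']; beta_reduce; gcongr ?_ / _ - _; nlinarith [hu.1, hu'.2]
  have t5 : StrictMono θ := fun i j h => (t3 i).trans (t4 i j h)
  have t6 : ∀ j < M, θ j ∈ Ioo (-Real.pi) Real.pi := fun j hj => by
    have : (j : ℝ) + 1 ≤ M := by exact_mod_cast hj
    have j0 : (0:ℝ) ≤ j := Nat.cast_nonneg j
    rw [hθ]
    constructor
    · have : 0 < (b + u + 2 * Real.pi * j) / M := div_pos (by nlinarith [hu.1]) M0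
      beta_reduce; linarith
    · have : (b + u + 2 * Real.pi * j) / M < 2 * Real.pi := by
        rw [div_lt_iff₀ M0]; nlinarith [hu.2]
      beta_reduce; linarith
  have t7 : ∀ j, θ j ≠ 0 := fun j e => by
    have := congrArg im (t1 j)
    rw [e, im_ofReal_mul] at this
    simp only [ofReal_zero, zero_mul, exp_zero, one_pow, mul_one, hc] at this
    exact mul_ne_zero (norm_ne_zero_iff.2 P.c0) (wim u hu) this.symm
  obtain ⟨TA, hTA⟩ : ∃ TA : ℕ → Prop, TA = fun j => ∃ T γ, s₀ ≤ T ∧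
    Lf (UU G) (fun z => F z / G z) (fun s => 1 + s * cexp (u * I)) γ T ∧ Dir γ (θ j) ∧ ‖γ T‖ = r ∧
      ∀ s ∈ Ioc 0 T, ‖γ s‖ ≤ r := ⟨_, rfl⟩
  obtain ⟨ρ, B, r1, r2, r3⟩ := hS r hr
  have cnt := count P (norm_exp_ofReal_mul_I u) g1 (by linarith) h0 r1 r2 r3 θ t5.injective
    ((Finset.range M).filter fun j => ¬ TA j) (fun j hj => by
      rw [Finset.mem_filter, Finset.mem_range, hTA] at hj
      exact (H _ (wim u hu) g1 _ (t6 j hj.1) (t1 j) r hr).resolve_left hj.2)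
  have c1 := Finset.card_filter_add_card_filter_not (s := Finset.range M) TA
  have c2 := Finset.card_filter_add_card_filter_not (s := (Finset.range M).filter TA) fun j => 0 < θ j
  rw [Finset.card_range] at c1
  obtain ⟨lo, t, l1, l2, l3⟩ : ∃ (lo : ℝ) (t : Finset ℕ), (lo = 0 ∨ lo = -Real.pi) ∧ q + 1 ≤ t.card ∧
      ∀ j ∈ t, j < M ∧ TA j ∧ θ j ∈ Ioo lo (lo + Real.pi) := by
    by_cases h : q + 1 ≤ (((Finset.range M).filter TA).filter fun j => 0 < θ j).card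
    · refine ⟨0, _, Or.inl rfl, h, fun j hj => ?_⟩
      simp only [Finset.mem_filter, Finset.mem_range] at hj
      exact ⟨hj.1.1, hj.1.2, hj.2, by simpa using (t6 j hj.1.1).2⟩
    · refine ⟨_, ((Finset.range M).filter TA).filter fun j => ¬ 0 < θ j, Or.inr rfl, by omega,
        fun j hj => ?_⟩
      simp only [Finset.mem_filter, Finset.mem_range] at hj
      exact ⟨hj.1.1, hj.1.2, (t6 j hj.1.1).1, by simpa using lt_of_le_of_ne (not_lt.1 hj.2) (t7 j)⟩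
  have hlo : Real.sin lo = 0 := by rcases l1 with rfl | rfl <;> simp
  obtain ⟨J, J1, J2⟩ : ∃ J : ℕ → ℕ, (∀ i ≤ q, J i ∈ t) ∧ ∀ i < q, J i < J (i + 1) := by
    refine ⟨fun i => if h : i < q + 1 then t.orderEmbOfCardLe l2 ⟨i, h⟩ else 0, fun i hi => ?_,
      fun i hi => ?_⟩
    · beta_reduce
      rw [dif_pos (by omega)]
      exact Finset.orderEmbOfCardLe_mem _ _ _
    · beta_reduce
      rw [dif_pos (by omega), dif_pos (by omega)]
      exact (t.orderEmbOfCardLe l2).strictMono (by simp)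
  have := fun i hi => (l3 _ (J1 i hi)).2.1
  rw [hTA] at this
  choose! T a a1 a2 a3 a4 a5 using this
  have T0 : ∀ i ≤ q, 0 < T i := fun i hi => h0.trans_le (a1 i hi)
  have := fun i (hi : i < q) => between Q hF (wre u hu) (wre u' hu') (norm_exp_ofReal_mul_I u')
    (wim u' hu') g2 (T0 i hi.le) (T0 (i + 1) hi) hr (a2 i hi.le) (a2 (i + 1) hi) (a3 i hi.le)
    (a3 (i + 1) hi) (t3 _) (t4 _ _ (J2 i hi))
    ⟨(t6 _ (l3 _ (J1 i hi.le)).1).1.trans (t3 _), (t4 _ _ (J2 i hi)).trans (t6 _ (l3 _ (J1 _ hi)).1).2⟩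
    (t2 _) hlo (l3 _ (J1 i hi.le)).2.2.1 (l3 _ (J1 _ hi)).2.2.2 (a4 i hi.le) (a4 _ hi) (a5 i hi.le)
    (a5 _ hi)
  choose! D d1 d2 d3 d4 using this
  have ar : ∀ i ≤ q, arg (a i (T i)) ∈ Ioo lo (lo + Real.pi) := fun i hi => by
    obtain ⟨m, m', m1, m2, m3⟩ := band (T0 i hi) (a2 i hi).1 (fun s hs => ((a2 i hi).2 s hs).1.1)
      (a3 i hi) hlo (l3 _ (J1 i hi)).2.2
    exact ⟨m1.trans_le (m3 _ ⟨T0 i hi, le_rfl⟩).1, (m3 _ ⟨T0 i hi, le_rfl⟩).2.trans_lt m2⟩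
  obtain ⟨z, hz⟩ : ∃ z : ℕ → ℂ, z = fun j => if Even j then a (j / 2) (T (j / 2)) else D (j / 2) := ⟨_, rfl⟩
  have ze : ∀ i, z (2 * i) = a i (T i) := fun i => by simp [hz]
  have zo : ∀ i, z (2 * i + 1) = D i := fun i => by
    simp [hz, show (2 * i + 1) / 2 = i by omega]
  have z1 : ∀ j ≤ 2 * q, arg (z j) ∈ Ioo lo (lo + Real.pi) := fun j hj => by
    obtain ⟨i, rfl | rfl⟩ := Nat.even_or_odd' j
    · rw [ze]; exact ar i (by omega)
    · rw [zo]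
      exact ⟨(ar i (by omega)).1.trans (d2 i (by omega)), (d3 i (by omega)).trans (ar _ (by omega)).2⟩
  have z2 : ∀ j < 2 * q, arg (z j) < arg (z (j + 1)) := fun j hj => by
    obtain ⟨i, rfl | rfl⟩ := Nat.even_or_odd' j
    · rw [ze, zo]; exact d2 i (by omega)
    · rw [zo, show 2 * i + 1 + 1 = 2 * (i + 1) by ring, ze]; exact d3 i (by omega)
  have z3 : Pat F G (s₀ * (cexp (u * I)).re) r q z := fun j hj => by
    have hi : (z j).im ≠ 0 := fun e => by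
      have := Real.sin_pos_of_pos_of_lt_pi (x := arg (z j) - lo) (by linarith [(z1 j hj).1])
        (by linarith [(z1 j hj).2])
      simp [Real.sin_sub, hlo, sin_arg, e] at this
    obtain ⟨i, rfl | rfl⟩ := Nat.even_or_odd' j
    · rw [if_pos (by simp)]
      refine ⟨by rw [ze, a4 i (by omega)], hi, ?_⟩
      rw [ze]
      obtain ⟨e1, e2⟩ := (a2 i (by omega)).2 _ ⟨T0 i (by omega), le_rfl⟩
      have e3 := nrm1 (ω := cexp (u * I)) (s := T i)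
      beta_reduce at e2
      rw [← e2, norm_div, le_div_iff₀ (norm_pos_iff.2 e1.2)] at e3
      refine le_trans ?_ e3
      have := a1 i (by omega)
      have := wre u hu
      gcongr
    · rw [if_neg (by simp)]
      exact ⟨by rw [zo, d1 i (by omega)], hi, by rw [zo]; exact d4 i (by omega)⟩
  have r0 : 0 < r := by linarith
  rcases l1 with rfl | rfl
  · refine ⟨z, z3, fun j hj => ?_⟩
    rw [re_eq, re_eq (z j), (z3 j hj.le).1, (z3 _ hj).1]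
    exact mul_lt_mul_of_pos_left (Real.cos_lt_cos_of_nonneg_of_le_pi (z1 j hj.le).1.le
      (by simpa using (z1 _ hj).2.le) (z2 j hj)) r0
  · refine ⟨fun j => z (2 * q - j), fun j hj => ?_, fun j hj => ?_⟩
    · have := z3 (2 * q - j) (by omega)
      simpa [Nat.even_sub hj] using this
    · have e : 2 * q - j = 2 * q - (j + 1) + 1 := by omega
      beta_reduce
      rw [e]
      generalize hk : 2 * q - (j + 1) = k
      have hk' : k < 2 * q := by omega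
      rw [re_eq, re_eq (z (k + 1)), (z3 k hk'.le).1, (z3 _ hk').1, ← Real.cos_neg, ← Real.cos_neg (arg _)]
      exact mul_lt_mul_of_pos_left (Real.cos_lt_cos_of_nonneg_of_le_pi (by linarith [(z1 _ hk').2])
        (by linarith [(z1 k hk'.le).1]) (by linarith [z2 k hk'])) r0

end Pool.Agent.H.MP_81537f_an
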