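import Pool.Agent.H.MP_81537f_an.A

set_option autoImplicit false
open Set Metric Filter Topology Complex Polynomial

namespace Pool.Agent.H.MP_81537f_an

def Cn (K : ℕ) (r : ℝ) (ψ : ℂ → ℝ) : Prop :=
  ∃ g : ℕ → ℝ → ℝ, (∀ j, ∀ x ∈ Ioo (-r) r, HasDerivAt (g j) (g (j + 1) x) x) ∧
    (∀ z : ℂ, ‖z‖ = r → z.im ≠ 0 → ψ z = g 0 z.re) ∧ ∀ x ∈ Ioo (-r) r, g K x ≤ 0

variable {K : ℕ} {r : ℝ}

lemma Cn.add {φ ψ : ℂ → ℝ} (h : Cn K r φ) (h' : Cn K r ψ) : Cn K r fun z => φ z + ψ z := by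
  obtain ⟨g, a1, a2, a3⟩ := h
  obtain ⟨g', b1, b2, b3⟩ := h'
  exact ⟨fun j x => g j x + g' j x, fun j x hx => (a1 j x hx).add (b1 j x hx),
    fun z h1 h2 => by beta_reduce; rw [a2 z h1 h2, b2 z h1 h2], fun x hx => add_nonpos (a3 x hx) (b3 x hx)⟩

lemma Cn.congr {φ ψ : ℂ → ℝ} (h : Cn K r φ) (e : ∀ z : ℂ, z.im ≠ 0 → ψ z = φ z) : Cn K r ψ := by
  obtain ⟨g, a1, a2, a3⟩ := h
  exact ⟨g, a1, fun z h1 h2 => (e z h2).trans (a2 z h1 h2), a3⟩

lemma Cn.sum {ι : Type} (t : Finset ι) {φ : ι → ℂ → ℝ} (h : ∀ i ∈ t, Cn K r (φ i)) :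
    Cn K r fun z => ∑ i ∈ t, φ i z := by
  classical
  induction t using Finset.induction_on with
  | empty => exact ⟨fun _ _ => 0, fun _ _ _ => hasDerivAt_const _ _, by simp, by simp⟩
  | insert a t ha ih =>
    simp only [Finset.sum_insert ha]
    exact (h a (by simp)).add (ih fun i hi => h i (by simp [hi]))

lemma repow (r : ℝ) (m : ℕ) : ∃ P : ℝ[X], P.natDegree ≤ m ∧ 0 ≤ P.coeff m ∧
    ∀ z : ℂ, ‖z‖ = r → (z ^ m).re = P.eval z.re := by
  induction m using Nat.twoStepInduction with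
  | zero => exact ⟨1, by simp, by simp, by simp⟩
  | one => exact ⟨X, by simp, by simp, by simp⟩
  | more m h0 h1 =>
    obtain ⟨P, a1, -, a3⟩ := h0
    obtain ⟨Q, b1, b2, b3⟩ := h1
    refine ⟨C 2 * (Q * X) - C (r ^ 2) * P, ?_, ?_, fun z hz => ?_⟩
    · refine (natDegree_sub_le _ _).trans (max_le ((natDegree_C_mul_le _ _).trans
        (natDegree_mul_le.trans (by simp; omega))) ((natDegree_C_mul_le _ _).trans (by omega)))
    · rw [coeff_sub, coeff_C_mul, coeff_C_mul, coeff_mul_X, coeff_eq_zero_of_natDegree_lt (p := P) (by omega)]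
      linarith
    · have e : z ^ (m + 2) = (2 * z.re : ℝ) * z ^ (m + 1) - (r ^ 2 : ℝ) * z ^ m := by
        rw [← add_conj, ← hz, Complex.sq_norm, ← mul_conj]; ring
      rw [e, sub_re, re_ofReal_mul, re_ofReal_mul, a3 z hz, b3 z hz]
      simp
      ring

lemma Cn.mon (t : ℝ) (m : ℕ) (hm : m ≤ K) (ht : m = K → t ≤ 0) : Cn K r fun z => (t * z ^ m).re := by
  obtain ⟨P, a1, a2, a3⟩ := repow r m
  refine ⟨fun j x => t * (derivative^[j] P).eval x, fun j x _ => ?_,
    fun z h1 _ => by simp [a3 z h1], fun x _ => ?_⟩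
  · beta_reduce
    rw [Function.iterate_succ_apply']
    exact ((derivative^[j] P).hasDerivAt x).const_mul t
  · rcases hm.eq_or_lt with rfl | h
    · have : (derivative^[m] P).natDegree = 0 :=
        Nat.eq_zero_of_le_zero ((natDegree_iterate_derivative P m).trans (by omega))
      beta_reduce
      rw [eq_C_of_natDegree_eq_zero this, eval_C, coeff_iterate_derivative, zero_add, nsmul_eq_mul]
      exact mul_nonpos_of_nonpos_of_nonneg (ht rfl) (by positivity)
    · beta_reduce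
      rw [iterate_derivative_eq_zero (by omega)]
      simp

lemma Cn.lg (hK : Even K) (hK0 : K ≠ 0) (y : ℝ) : Cn K r fun z => Real.log ‖1 - y * z‖ := by
  have pos : ∀ x ∈ Ioo (-r) r, 0 < 1 + y ^ 2 * r ^ 2 - 2 * y * x := fun x hx => by
    rcases eq_or_ne y 0 with rfl | h
    · simp
    · have : 0 < y ^ 2 * ((r - x) * (x + r)) :=
        mul_pos (by positivity) (mul_pos (by linarith [hx.2]) (by linarith [hx.1]))
      nlinarith [sq_nonneg (1 - y * x)]
  refine ⟨fun j x => Nat.casesOn j (Real.log (1 + y ^ 2 * r ^ 2 - 2 * y * x) / 2)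
    fun j => -(j.factorial / 2) * (2 * y / (1 + y ^ 2 * r ^ 2 - 2 * y * x)) ^ (j + 1), fun j x hx => ?_,
    fun z h1 _ => ?_, fun x hx => ?_⟩
  · have h0 := (pos x hx).ne'
    have h1 : HasDerivAt (fun x => 1 + y ^ 2 * r ^ 2 - 2 * y * x) (-(2 * y)) x := by
      simpa using ((hasDerivAt_id x).const_mul (2 * y)).const_sub (1 + y ^ 2 * r ^ 2)
    cases j with
    | zero => exact ((h1.log h0).div_const 2).congr_deriv (by simp; ring)
    | succ j =>
      refine ((((hasDerivAt_const x (2 * y)).fun_div h1 h0).fun_pow (j + 1)).const_mul _).congr_deriv ?_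
      simp only [Nat.factorial_succ, Nat.add_sub_cancel]
      push_cast
      generalize 1 + y ^ 2 * r ^ 2 - 2 * y * x = D at *
      rw [pow_succ _ (j + 1), pow_succ _ j]
      field_simp
      ring
  · have : 1 + y ^ 2 * r ^ 2 - 2 * y * z.re = ‖1 - y * z‖ ^ 2 := by
      rw [← h1, Complex.sq_norm, Complex.sq_norm, normSq_apply, normSq_apply]
      simp
      ring
    simp [this]
  · obtain ⟨j, rfl⟩ := Nat.exists_eq_succ_of_ne_zero hK0
    exact mul_nonpos_of_nonpos_of_nonneg (neg_nonpos.2 (by positivity)) (hK.pow_nonneg _)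

lemma Cn.no {ψ : ℂ → ℝ} (h : Cn K r ψ) (z : ℕ → ℂ) (h1 : ∀ j ≤ K, ‖z j‖ = r ∧ (z j).im ≠ 0)
    (h2 : ∀ j < K, (z (j + 1)).re < (z j).re) : ¬ ∀ j ≤ K, 0 < (-1) ^ j * ψ (z j) := by
  obtain ⟨g, a1, a2, a3⟩ := h
  intro h3
  obtain ⟨x, hx, e⟩ := alt (-r) r K g (fun j => (z j).re) a1 (fun j hj => by
    have := abs_re_lt_norm.2 (h1 j hj).2
    rw [(h1 j hj).1] at this
    exact abs_lt.1 this) h2 fun j hj => by rw [← a2 _ (h1 j hj).1 (h1 j hj).2]; exact h3 j hj
  exact absurd e (not_lt.2 (a3 x hx))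

noncomputable def EE (k : ℕ) (w : ℂ) : ℂ := (1 - w) * cexp (∑ j ∈ Finset.Icc 1 k, w ^ j / (j : ℂ))

lemma EE_bd (k : ℕ) {w : ℂ} (hw : ‖w‖ ≤ 1 / 2) : ‖EE k w - 1‖ ≤ 4 * ‖w‖ ^ (k + 1) := by
  have h1 := norm_log_sub_logTaylor_le k (z := -w) (by rw [norm_neg]; linarith)
  have n0 : 1 + -w ≠ 0 := fun e => by
    have : w = 1 := by linear_combination -e
    rw [this, norm_one] at hw
    linarith
  have e : EE k w = cexp (log (1 + -w) - logTaylor (k + 1) (-w)) := by
    rw [sub_eq_add_neg, exp_add, exp_log n0, EE, ← sub_eq_add_neg, logTaylor, ← Finset.sum_neg_distrib,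
      Finset.range_eq_Ico, Finset.sum_eq_sum_Ico_succ_bot (by omega)]
    congr 2
    simp only [Nat.cast_zero, div_zero, neg_zero, zero_add]
    refine Finset.sum_congr rfl fun j _ => ?_
    rw [neg_pow w, ← mul_assoc, pow_succ, mul_right_comm _ (-1 : ℂ), ← mul_pow]
    simp [neg_div]
  rw [norm_neg] at h1
  have h2 : ‖w‖ ^ (k + 1) * (1 - ‖w‖)⁻¹ / (k + 1) ≤ 2 * ‖w‖ ^ (k + 1) := by
    have a1 : (1 - ‖w‖)⁻¹ ≤ 2 := by rw [inv_le_comm₀ (by linarith) two_pos]; linarith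
    have a2 : 0 ≤ (1 - ‖w‖)⁻¹ := inv_nonneg.2 (by linarith)
    refine (div_le_self (by positivity) (by simp)).trans ?_
    rw [mul_comm 2]
    gcongr
  have h3 : ‖w‖ ^ (k + 1) ≤ 1 / 2 :=
    (pow_le_of_le_one (norm_nonneg _) (by linarith) (by omega)).trans hw
  rw [e]
  linarith [norm_exp_sub_one_le (x := log (1 + -w) - logTaylor (k + 1) (-w)) (by linarith)]

lemma prodE (k : ℕ) (y : ℕ → ℝ) (hy : Summable fun n => |y n| ^ (k + 1)) :
    Differentiable ℂ (fun z => ∏' n, EE k (y n * z)) ∧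
    (∀ z : ℂ, Tendsto (fun N => ∏ n ∈ Finset.range N, EE k (y n * z)) atTop (𝓝 (∏' n, EE k (y n * z)))) ∧
    ∀ z : ℂ, z.im ≠ 0 → ∏' n, EE k (y n * z) ≠ 0 := by
  have y0 : Tendsto (fun n => |y n|) atTop (𝓝 0) := by
    have := (Real.continuous_rpow_const (q := ((k + 1 : ℕ) : ℝ)⁻¹) (by positivity)).tendsto 0
      |>.comp hy.tendsto_atTop_zero
    rw [Real.zero_rpow (by positivity)] at this
    exact this.congr fun n => Real.pow_rpow_inv_natCast (abs_nonneg _) (by omega)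
  have bd : ∀ R : ℝ, 0 < R → ∀ᶠ n in atTop, ∀ z ∈ ball (0:ℂ) R,
      ‖EE k (y n * z) - 1‖ ≤ 4 * R ^ (k + 1) * |y n| ^ (k + 1) := fun R hR => by
    filter_upwards [y0.eventually (gt_mem_nhds (show 0 < 1 / 2 / R by positivity))] with n hn z hz
    have h1 : ‖y n * z‖ ≤ R * |y n| := by
      rw [norm_mul, norm_real, Real.norm_eq_abs, mul_comm]
      gcongr
      exact (mem_ball_zero_iff.1 hz).le
    rw [lt_div_iff₀' hR] at hn
    refine (EE_bd k (by linarith)).trans ?_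
    rw [mul_assoc, ← mul_pow]
    gcongr
  have dE : ∀ n, Differentiable ℂ fun z => EE k (y n * z) := fun n => by unfold EE; fun_prop
  have hp : ∀ R : ℝ, 0 < R → HasProdLocallyUniformlyOn (fun n z => EE k (y n * z))
      (fun z => ∏' n, EE k (y n * z)) (ball (0:ℂ) R) := fun R hR => by
    simpa using (hy.mul_left (4 * R ^ (k + 1))).hasProdLocallyUniformlyOn_nat_one_add isOpen_ball (bd R hR)
      fun n => ((dE n).continuous.sub continuous_const).continuousOn
  have mem : ∀ z : ℂ, z ∈ ball (0:ℂ) (‖z‖ + 1) := fun z => by simp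
  refine ⟨fun z => ?_, fun z => ((hp _ (by positivity)).hasProd (mem z)).tendsto_prod_nat, fun z hz => ?_⟩
  · refine ((hp _ (by positivity)).tendstoLocallyUniformlyOn_finsetRange.differentiableOn
      (Eventually.of_forall fun N => ?_) isOpen_ball).differentiableAt (isOpen_ball.mem_nhds (mem z))
    exact (Differentiable.fun_finsetProd fun n _ => dE n).differentiableOn
  · have := tprod_one_add_ne_zero_of_summable (f := fun n => EE k (y n * z) - 1) (fun n => by
      rw [add_sub_cancel]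
      refine mul_ne_zero (fun e => hz ?_) (exp_ne_zero _)
      have h1 := congrArg im e
      have h2 := congrArg re e
      simp at h1 h2
      refine h1.resolve_left fun h => ?_
      simp [h] at h2) (Summable.of_norm_bounded_eventually_nat (hy.mul_left (4 * (‖z‖ + 1) ^ (k + 1)))
        ((bd (‖z‖ + 1) (by positivity)).mono fun n hn => by simpa using hn z (mem z)))
    simpa using this

end Pool.Agent.H.MP_81537f_an
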