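import Pool.Agent.H.MP_81537f_an.D
import Pool.Agent.H.MP_81537f_an.E

set_option autoImplicit false
open Set Metric Filter Topology Complex Polynomial

namespace Pool.Agent.H.MP_81537f_an

lemma real_deriv {f : ℂ → ℂ} (hf : Differentiable ℂ f) (h : ∀ z : ℂ, z.im = 0 → (f z).im = 0) (n : ℕ) :
    ∀ z : ℂ, z.im = 0 → (iteratedDeriv n f z).im = 0 := by
  induction n with
  | zero => simpa using h
  | succ n ih =>
    intro z hz
    have d : Differentiable ℂ (iteratedDeriv n f) := (hf.contDiff (n := ((n + 1 : ℕ) : ℕ∞))).differentiable_iteratedDeriv n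
      (by exact_mod_cast Nat.lt_succ_self n)
    obtain ⟨x, rfl⟩ : ∃ x : ℝ, z = x := ⟨z.re, Complex.ext rfl (by simp [hz])⟩
    have h1 : HasDerivAt (fun t : ℝ => (iteratedDeriv n f t).im) _ x :=
      imCLM.hasFDerivAt.comp_hasDerivAt x (d x).hasDerivAt.comp_ofReal
    rw [show (fun t : ℝ => (iteratedDeriv n f t).im) = fun _ => 0 from funext fun t => ih _ (by simp)] at h1
    rw [iteratedDeriv_succ]
    exact h1.unique (hasDerivAt_const _ _)

lemma fac (d : ℕ) : ∀ S : ℂ[X], S.natDegree = d → S.eval 0 ≠ 0 → (∀ z : ℂ, z.im ≠ 0 → S.eval z ≠ 0) →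
    ∃ (c : ℂ) (y : ℕ → ℝ), ∀ z, S.eval z = c * ∏ i ∈ Finset.range d, (1 - y i * z) := by
  induction d with
  | zero =>
    intro S h _ _
    exact ⟨S.coeff 0, 0, fun z => by rw [eq_C_of_natDegree_eq_zero h]; simp⟩
  | succ d ih =>
    intro S h h0 h1
    obtain ⟨ρ, hρ⟩ := Complex.exists_root (f := S) (natDegree_pos_iff_degree_pos.1 (by omega))
    obtain ⟨T, rfl⟩ := dvd_iff_isRoot.2 hρ
    have T0 : T ≠ 0 := by rintro rfl; simp at h0
    rw [natDegree_mul (X_sub_C_ne_zero ρ) T0, natDegree_X_sub_C] at h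
    simp only [eval_mul, eval_sub, eval_X, eval_C, mul_ne_zero_iff] at h0 h1
    obtain ⟨c, y, hy⟩ := ih T (by omega) h0.2 fun z hz => (h1 z hz).2
    obtain ⟨x, rfl⟩ : ∃ x : ℝ, ρ = x := ⟨ρ.re, Complex.ext rfl (by
      by_contra g
      exact (h1 ρ (by simpa using g)).1 (sub_self _))⟩
    have x0 : (x : ℂ) ≠ 0 := by simpa using h0.1
    refine ⟨-x * c, fun i => if i = d then x⁻¹ else y i, fun z => ?_⟩
    rw [Finset.prod_range_succ, Finset.prod_congr rfl (g := fun i => 1 - y i * z) fun i hi => by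
      simp only [if_neg (Finset.mem_range.1 hi).ne]]
    simp only [eval_mul, eval_sub, eval_X, eval_C, hy, if_true]
    push_cast
    field_simp
    ring

lemma polycase (k : ℕ) (f : ℂ → ℂ) (S : ℂ[X]) (hf : ∀ z, f z = S.eval z) (h0 : f 0 ≠ 0)
    (h1 : ∀ z : ℂ, z.im ≠ 0 → f z ≠ 0) :
    ∃ (c : ℂ) (m : ℕ) (a : ℝ) (β : ℝ[X]) (y : ℕ → ℝ), 0 ≤ a ∧ β.natDegree ≤ k ∧
      (∀ e : ℕ, e ≠ 0 → Summable (fun n => |y n| ^ e)) ∧ ∀ (e : ℕ) (z : ℂ), f z = c * z ^ m *
        cexp (-(a : ℂ) * z ^ e + aeval z β) * ∏' n, EE k (y n * z) := by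
  obtain ⟨c, y, hy⟩ := fac _ S rfl (hf 0 ▸ h0) fun z hz => hf z ▸ h1 z hz
  refine ⟨c, 0, 0, -∑ i ∈ Finset.range S.natDegree, ∑ j ∈ Finset.Icc 1 k, C (y i ^ j / j) * X ^ j,
    fun i => if i < S.natDegree then y i else 0, le_rfl, ?_, fun e he => ?_, fun e z => ?_⟩
  · rw [natDegree_neg]
    exact natDegree_sum_le_of_forall_le _ _ fun i _ => natDegree_sum_le_of_forall_le _ _ fun j hj =>
      (natDegree_C_mul_X_pow_le _ _).trans (Finset.mem_Icc.1 hj).2
  · exact summable_of_ne_finset_zero (s := Finset.range S.natDegree) fun i hi => by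
      simp [show ¬ i < S.natDegree by simpa using hi, he]
  · rw [tprod_eq_prod (s := Finset.range S.natDegree) fun i hi => by
      simp only [show ¬ i < S.natDegree by simpa using hi, if_false, EE]
      rw [Finset.sum_eq_zero fun j hj => by simp [show j ≠ 0 by have := (Finset.mem_Icc.1 hj).1; omega]]
      simp, Finset.prod_congr rfl (g := fun i => EE k (y i * z)) fun i hi => by
      simp only [if_pos (Finset.mem_range.1 hi)], hf, hy]
    simp only [EE, Finset.prod_mul_distrib, ← exp_sum]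
    simp only [ofReal_zero, neg_zero, zero_mul, zero_add, map_neg, map_sum, map_mul, aeval_C, map_pow,
      aeval_X, pow_zero, mul_one, coe_algebraMap]
    rw [mul_assoc, mul_left_comm (cexp _), ← exp_add]
    push_cast
    simp only [mul_pow, div_mul_eq_mul_div, neg_add_cancel, exp_zero, mul_one]

lemma flat (S : ℂ[X]) (hS : S ≠ 0) {η : ℝ} (hη : 0 < η) :
    ∃ r κ : ℝ, 1 ≤ r ∧ 0 < κ ∧ ∀ z : ℂ, ‖z‖ = r → ‖S.eval z‖ < κ ∧ κ < (1 + η) * ‖S.eval z‖ := by
  obtain ⟨δ, hδ, h2⟩ : ∃ δ, 0 < δ ∧ δ * (3 + η) = η / 2 := ⟨η / 2 / (3 + η), by positivity, by field_simp⟩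
  obtain ⟨R, -, hR⟩ := hasBasis_cobounded_norm.eventually_iff.1
    ((isEquivalent_cobounded_leading_monomial (P := S)).def hδ)
  have r1 := le_max_left 1 R
  have l0 : 0 < ‖S.leadingCoeff‖ * max 1 R ^ S.natDegree :=
    mul_pos (norm_pos_iff.2 (leadingCoeff_ne_zero.2 hS)) (by positivity)
  refine ⟨max 1 R, (1 + 2 * δ) * (‖S.leadingCoeff‖ * max 1 R ^ S.natDegree), r1, by positivity,
    fun z hz => ?_⟩
  have h1 := (abs_norm_sub_norm_le _ _).trans (hR (x := z) (by rw [mem_ofPred_eq, hz]; exact le_max_right _ _))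
  rw [norm_mul, norm_pow, hz, abs_le] at h1
  generalize ‖S.leadingCoeff‖ * max 1 R ^ S.natDegree = L at *
  have := mul_pos hδ l0
  have := mul_pos hη l0
  refine ⟨by linarith [h1.2], ?_⟩
  have a1 : (1 + η) * ((1 - δ) * L) ≤ (1 + η) * ‖S.eval z‖ := by gcongr; linarith [h1.1]
  nlinarith

theorem main (p : ℕ) (f : ℂ → ℂ) (c : ℂ) (m : ℕ) (a : ℝ) (β : ℝ[X]) (y : ℕ → ℝ) (ha : 0 ≤ a)
    (hβ : β.natDegree ≤ 2 * p + 1) (hy : Summable fun n => |y n| ^ (2 * p + 2))
    (hf : ∀ z : ℂ, f z = c * z ^ m * cexp (-(a : ℂ) * z ^ (2 * p + 2) + aeval z β) *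
      ∏' n, EE (2 * p + 1) (y n * z)) (h0 : f 0 = 1) (n : ℕ)
    (hn : ∀ j < 2 * p + 2, iteratedDeriv (n + j) f 0 = 0) :
    (∀ z : ℂ, z.im ≠ 0 → f z ≠ 0) ∧ ∃ S : ℂ[X], ∀ z, f z = S.eval z := by
  obtain ⟨p1, p2, p3⟩ := prodE (2 * p + 1) y hy
  have E0 : EE (2 * p + 1) 0 = 1 := by
    rw [EE, Finset.sum_eq_zero fun j hj => by simp [show j ≠ 0 by have := (Finset.mem_Icc.1 hj).1; omega]]
    simp
  have hb : ∀ z : ℂ, aeval z β = ∑ j ∈ Finset.range (2 * p + 2), (β.coeff j : ℂ) * z ^ j := fun z => by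
    rw [aeval_eq_sum_range' (n := 2 * p + 2) (by omega)]; simp
  have m0 : m = 0 := by
    by_contra h
    rw [hf] at h0
    simp [h] at h0
  subst m0
  have c1 : c = (Real.exp (-β.coeff 0) : ℝ) := by
    rw [hf, hb, Finset.sum_eq_single 0 (fun j _ hj => by simp [hj]) (by simp)] at h0
    simp only [pow_zero, mul_one, mul_zero, E0, tprod_one, ne_eq, Nat.add_eq_zero_iff, OfNat.ofNat_ne_zero,
      and_false, not_false_eq_true, zero_pow, zero_add] at h0
    rw [ofReal_exp, ofReal_neg, exp_neg]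
    exact eq_inv_of_mul_eq_one_left h0
  simp only [pow_zero, mul_one, hb, c1] at hf
  have df : Differentiable ℂ f := by
    rw [funext hf]
    exact Differentiable.mul (by fun_prop) p1
  have nz : ∀ z : ℂ, z.im ≠ 0 → f z ≠ 0 := fun z hz => by
    rw [hf]; exact mul_ne_zero (mul_ne_zero (by simp) (exp_ne_zero _)) (p3 z hz)
  refine ⟨nz, ?_⟩
  have tf : ∀ z : ℂ, Tendsto (fun N => (Real.exp (-β.coeff 0) : ℂ) * cexp (-(a : ℂ) * z ^ (2 * p + 2) +
      ∑ j ∈ Finset.range (2 * p + 2), (β.coeff j : ℂ) * z ^ j) *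
      ∏ n ∈ Finset.range N, EE (2 * p + 1) (y n * z)) atTop (𝓝 (f z)) := fun z => by
    rw [hf]; exact (p2 z).const_mul _
  have rf : ∀ z : ℂ, z.im = 0 → (f z).im = 0 := fun z hz => by
    obtain ⟨x, rfl⟩ : ∃ x : ℝ, z = x := ⟨z.re, Complex.ext rfl (by simp [hz])⟩
    refine tendsto_nhds_unique ((continuous_im.tendsto _).comp (tf x)) (tendsto_const_nhds.congr fun N => ?_)
    simp only [Function.comp, EE]
    norm_cast
  obtain ⟨N, rfl⟩ : ∃ N, n = N + 1 := Nat.exists_eq_succ_of_ne_zero fun e => by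
    have := hn 0 (by omega)
    simp [e, h0] at this
  obtain ⟨S, hS⟩ : ∃ S : ℂ[X], S = ∑ i ∈ Finset.range (N + 1),
    C (iteratedDeriv i f 0 / i.factorial) * X ^ i := ⟨_, rfl⟩
  have eS : ∀ z, S.eval z = ∑ i ∈ Finset.range (N + 1), iteratedDeriv i f 0 / i.factorial * z ^ i :=
    fun z => by simp [hS, eval_finset_sum]
  have S0 : S.eval 0 = 1 := by
    rw [eS, Finset.sum_eq_single 0 (fun j _ hj => by simp [hj]) (by simp)]; simp [h0]
  have rS : ∀ z : ℂ, z.im = 0 → (S.eval z).im = 0 := fun z hz => by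
    obtain ⟨x, rfl⟩ : ∃ x : ℝ, z = x := ⟨z.re, Complex.ext rfl (by simp [hz])⟩
    rw [eS, im_sum]
    refine Finset.sum_eq_zero fun i _ => ?_
    rw [← ofReal_pow, im_mul_ofReal, div_natCast_im, real_deriv df rf i 0 rfl]
    simp
  obtain ⟨H, H1, H2⟩ := (df.analyticAt 0).exists_eventuallyEq_sum_add_pow_mul (N + 1 + (2 * p + 2))
  have H3 : ∀ᶠ z in 𝓝 0, f z - S.eval z = z ^ (N + 1 + (2 * p + 2)) * H z := by
    filter_upwards [H2] with z hz
    rw [hz, Finset.sum_range_add, Finset.sum_eq_zero (s := Finset.range (2 * p + 2)) fun j hj => by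
      rw [hn j (Finset.mem_range.1 hj), smul_zero], eS, add_zero, smul_eq_mul, sub_eq_iff_eq_add']
    congr 1
    exact Finset.sum_congr rfl fun i _ => by rw [smul_eq_mul]; ring
  by_cases hH : ∀ᶠ z in 𝓝 0, H z = 0
  · refine ⟨S, congrFun (AnalyticOnNhd.eq_of_eventuallyEq (fun z _ => df.analyticAt z)
      (fun z _ => S.differentiable.analyticAt z) (z₀ := 0) ?_)⟩
    filter_upwards [H3, hH] with z h1 h2
    rwa [h2, mul_zero, sub_eq_zero] at h1
  exfalso
  obtain ⟨e, h, h1, h2, h3⟩ := H1.exists_eventuallyEq_pow_smul_nonzero_iff.2 hH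
  have H4 : ∀ᶠ z in 𝓝 0, f z - S.eval z = z ^ (N + 1 + (2 * p + 2) + e) * h z := by
    filter_upwards [H3, h3] with z a1 a2
    rw [a1, a2, sub_zero, smul_eq_mul]; ring
  have hc : (h 0).im = 0 := by
    have t0 : Tendsto (fun t : ℝ => (t : ℂ)) (𝓝[>] 0) (𝓝 0) := by
      simpa using (continuous_ofReal.tendsto 0).mono_left nhdsWithin_le_nhds
    refine tendsto_nhds_unique ((continuous_im.tendsto _).comp (h1.continuousAt.tendsto.comp t0))
      (tendsto_const_nhds.congr' ?_)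
    filter_upwards [t0.eventually H4, self_mem_nhdsWithin] with t a1 a2
    have a3 := congrArg im a1
    rw [sub_im, rf _ (by simp), rS _ (by simp), ← ofReal_pow, im_ofReal_mul, sub_self] at a3
    exact ((mul_eq_zero.1 a3.symm).resolve_left (pow_ne_zero _ (ne_of_gt a2))).symm
  have P : Pr f (fun z => S.eval z) (N + 1 + (2 * p + 2) + e) (h 0) :=
    ⟨df, S.differentiable, rf, rS, S0, fun z hz e => absurd e (nz z hz), by omega, h2, h, h1, rfl, H4⟩
  have Q : Pr (fun z => S.eval z) f (N + 1 + (2 * p + 2) + e) (-h 0) :=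
    ⟨S.differentiable, df, rS, rf, h0, fun z hz _ => nz z hz, by omega, neg_ne_zero.2 h2, fun z => -h z,
      h1.neg, rfl, H4.mono fun z hz => by rw [mul_neg, ← hz]; ring⟩
  obtain ⟨η, hη, T⟩ := topo P Q hc nz N (p + 1) (by omega) (fun r hr => by
    obtain ⟨B, hB⟩ : ∃ B, B = ∑ i ∈ Finset.range (N + 1), ‖iteratedDeriv i f 0 / i.factorial‖ := ⟨_, rfl⟩
    have B0 : 0 ≤ B := hB ▸ Finset.sum_nonneg fun _ _ => norm_nonneg _
    obtain ⟨ρ, hρ⟩ : ∃ ρ, ρ = 2 * r + 2 * (B * (2 * r) ^ (N + 1)) + 1 := ⟨_, rfl⟩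
    have x0 : 0 ≤ B * (2 * r) ^ (N + 1) := by positivity
    have ρ0 : 0 < ρ := by linarith
    refine ⟨ρ, B * ρ ^ N, by linarith, fun w hw => ?_, ?_⟩
    · rw [eS, hB, Finset.sum_mul]
      refine norm_sum_le_of_le _ fun i hi => ?_
      rw [norm_mul, norm_pow, hw]
      gcongr
      · linarith
      · exact Nat.lt_succ_iff.1 (Finset.mem_range.1 hi)
    · have a1 : r / (ρ - r) ≤ 2 * r / ρ := by
        rw [div_le_div_iff₀ (by linarith) ρ0]; nlinarith
      have a2 : 0 ≤ r / (ρ - r) := div_nonneg (by linarith) (by linarith)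
      calc _ ≤ B * ρ ^ N * (2 * r / ρ) ^ (N + 1) := by gcongr
        _ = B * (2 * r) ^ (N + 1) / ρ := by rw [div_pow]; field_simp; ring
        _ < _ := by rw [div_lt_iff₀ ρ0]; linarith)
  obtain ⟨r, κ, r1, κ0, hκ⟩ := flat S (by rintro rfl; simp at S0) hη
  obtain ⟨z, z1, z2⟩ := T r r1
  have lt : ∀ j ∈ Finset.range (2 * (p + 1) + 1), 0 < (-1) ^ j * (Real.log ‖f (z j)‖ - Real.log κ) := by
    intro j hj
    obtain ⟨a1, a2, a3⟩ := z1 j (Nat.lt_succ_iff.1 (Finset.mem_range.1 hj))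
    split_ifs at a3 with g
    · rw [g.neg_one_pow, one_mul, sub_pos]
      exact Real.log_lt_log κ0 ((hκ _ a1).2.trans_le a3)
    · rw [(Nat.not_even_iff_odd.1 g).neg_one_pow, neg_one_mul, neg_pos, sub_neg]
      exact Real.log_lt_log (norm_pos_iff.2 (nz _ a2)) (a3.trans_lt (hκ _ a1).1)
  obtain ⟨L, hL⟩ := ((Finset.eventually_all _).2 fun j hj => (((((tf (z j)).norm.log (norm_ne_zero_iff.2
    (nz _ (z1 j (Nat.lt_succ_iff.1 (Finset.mem_range.1 hj))).2.1))).sub_const (Real.log κ)).const_mul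
    ((-1) ^ j)).eventually (lt_mem_nhds (lt j hj)))).exists
  have K1 : Even (2 * (p + 1)) := even_two_mul _
  have CC := ((((Cn.mon (K := 2 * (p + 1)) (r := r) (-β.coeff 0 - Real.log κ) 0 (by omega) (by omega)).add
    (Cn.mon (-a) (2 * p + 2) (by omega) fun _ => by linarith)).add
    (Cn.sum (Finset.range (2 * p + 2)) fun j hj => Cn.mon (β.coeff j) j
      (by have := Finset.mem_range.1 hj; omega) (by have := Finset.mem_range.1 hj; omega))).add
    (Cn.sum (Finset.range L) fun i _ => (Cn.lg K1 (by omega) (y i)).add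
      (Cn.sum (Finset.Icc 1 (2 * p + 1)) fun j hj => Cn.mon (y i ^ j / j) j
        (by have := Finset.mem_Icc.1 hj; omega) (by have := Finset.mem_Icc.1 hj; omega))))
  refine CC.no z (fun j hj => ⟨(z1 j hj).1, (z1 j hj).2.1⟩) z2 fun j hj => ?_
  refine (hL j (Finset.mem_range.2 (Nat.lt_succ_iff.2 hj))).trans_eq ?_
  have zi := (z1 j hj).2.1
  generalize z j = w at *
  have n1 : ∀ i, ‖1 - y i * w‖ ≠ 0 := fun i => norm_ne_zero_iff.2 fun e => zi (by
    have h1 := congrArg im e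
    have h2 := congrArg re e
    simp at h1 h2
    refine h1.resolve_left fun h => ?_
    simp [h] at h2)
  have n2 : ∀ i, Real.log ‖EE (2 * p + 1) (y i * w)‖ = Real.log ‖1 - y i * w‖ +
      ∑ j ∈ Finset.Icc 1 (2 * p + 1), (((y i ^ j / j : ℝ) : ℂ) * w ^ j).re := fun i => by
    rw [EE, norm_mul, norm_exp, Real.log_mul (n1 i) (Real.exp_ne_zero _), Real.log_exp, re_sum]
    congr 1
    refine Finset.sum_congr rfl fun j _ => ?_
    push_cast
    rw [mul_pow, div_mul_eq_mul_div]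
  have n3 : ∀ i, ‖EE (2 * p + 1) (y i * w)‖ ≠ 0 := fun i => by
    rw [EE, norm_mul, norm_exp]; exact mul_ne_zero (n1 i) (Real.exp_ne_zero _)
  congr 1
  rw [norm_mul, norm_mul, norm_prod, norm_exp, norm_real, Real.norm_of_nonneg (Real.exp_pos _).le,
    ← Real.exp_add, Real.log_mul (Real.exp_ne_zero _) (Finset.prod_ne_zero_iff.2 fun i _ => n3 i),
    Real.log_exp, Real.log_prod fun i _ => n3 i, add_re, re_sum]
  simp only [n2, pow_zero, mul_one, ofReal_re, ofReal_neg]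
  ring

end Pool.Agent.H.MP_81537f_an
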